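import Pool.Graph.R_seed8.H811R3.DM.Expo

set_option autoImplicit false

/-!
# Exponent estimates with explicit constants (after `Pool.Graph.R_seed8.H811R3.DM.Expo`)
-/

namespace Pool.Agent.H51.DQ

open Real
open Pool.Agent.H811R3.DM

theorem expoX : ∀ η : ℝ, 0 < η → η ≤ 1 → ∀ C : ℝ, 3 ≤ C → ∃ p₀ : ℝ, 1 ≤ p₀ ∧
    ∀ β p : ℝ, 0 < β → p₀ ≤ p → ∀ P Q b : ℕ, P + Q ≤ b →
    (η * p < |(P : ℝ) - p| ∨ η * p < |(Q : ℝ) - p| ∨ (P : ℝ) + Q + η * p < b) →
    β * p * (3 + η ^ 2 / 24) ≤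
      β * b + β * p ^ 3 / π ^ 2 * (1 - cos (π / (P + C)) * cos (π / (Q + C))) := by
  intro η hη hηle
  obtain ⟨η₁, hη₁⟩ : ∃ η₁ : ℝ, η₁ = η := ⟨_, rfl⟩
  have hη₁0 : 0 < η₁ := by rw [hη₁]; exact hη
  have hη₁1 : η₁ ≤ 1 := by rw [hη₁]; exact hηle
  have hη₁η : η₁ ≤ η := hη₁.le
  obtain ⟨c₀, hc₀⟩ : ∃ c₀ : ℝ, c₀ = (η₁ / 2) ^ 2 / (1 + η₁ / 2) := ⟨_, rfl⟩
  have hc₀0 : 0 < c₀ := by rw [hc₀]; positivity
  have hc₀η : c₀ ≤ η₁ := by
    rw [hc₀, div_le_iff₀ (by positivity)]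
    nlinarith
  have hc₀1 : c₀ ≤ 1 := hc₀η.trans hη₁1
  have hcη : η ^ 2 / 24 ≤ c₀ / 4 := by
    rw [hc₀, ← hη₁, div_div, div_le_div_iff₀ (by norm_num) (by positivity)]
    nlinarith [mul_nonneg (sq_nonneg η₁) (sub_nonneg.mpr hη₁1), sq_nonneg η₁]
  suffices hs : ∀ C : ℝ, 3 ≤ C → ∃ p₀ : ℝ, 1 ≤ p₀ ∧
      ∀ β p : ℝ, 0 < β → p₀ ≤ p → ∀ P Q b : ℕ, P + Q ≤ b →
      (η * p < |(P : ℝ) - p| ∨ η * p < |(Q : ℝ) - p| ∨ (P : ℝ) + Q + η * p < b) →
      β * p * (3 + c₀ / 4) ≤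
        β * b + β * p ^ 3 / π ^ 2 * (1 - cos (π / (P + C)) * cos (π / (Q + C))) by
    intro C hC
    obtain ⟨p₀, hp₀, h⟩ := hs C hC
    refine ⟨p₀, hp₀, fun β p hβ hp P Q b hPQ hbad => le_trans ?_ (h β p hβ hp P Q b hPQ hbad)⟩
    have : 0 < p := by linarith
    apply mul_le_mul_of_nonneg_left _ (by positivity)
    linarith
  intro C hC
  obtain ⟨ε, hε⟩ : ∃ ε : ℝ, ε = c₀ / 16 := ⟨_, rfl⟩
  have hε0 : 0 < ε := by rw [hε]; positivity
  have hε1 : ε ≤ 1 := by rw [hε]; linarith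
  refine ⟨2 * C / η₁ + 8 * C / c₀ + 2 * π ^ 4 / ε + 1, ?_, ?_⟩
  · have : 0 ≤ 2 * C / η₁ + 8 * C / c₀ + 2 * π ^ 4 / ε := by positivity
    linarith
  intro β p hβ hp P Q b hPQ hbad
  have hC0 : 0 < C := by linarith
  have t1 : 0 ≤ 2 * C / η₁ := by positivity
  have t2 : 0 ≤ 8 * C / c₀ := by positivity
  have t3 : 0 ≤ 2 * π ^ 4 / ε := by positivity
  have hp1 : 1 ≤ p := by linarith
  have hp0 : 0 < p := by linarith
  have hpa : 2 * C ≤ η₁ * p := by
    have : 2 * C / η₁ ≤ p := by linarith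
    rw [div_le_iff₀ hη₁0] at this; linarith
  have hpb : 8 * C ≤ c₀ * p := by
    have : 8 * C / c₀ ≤ p := by linarith
    rw [div_le_iff₀ hc₀0] at this; linarith
  have hpc : 2 * π ^ 4 ≤ ε * p ^ 2 := by
    have h1 : 2 * π ^ 4 / ε ≤ p := by linarith
    rw [div_le_iff₀ hε0] at h1
    have h2 : p ≤ p ^ 2 := by rw [pow_two]; exact le_mul_of_one_le_left hp0.le hp1
    have h3 : p * ε ≤ p ^ 2 * ε := mul_le_mul_of_nonneg_right h2 hε0.le
    linarith
  have hPQr : (P : ℝ) + Q ≤ b := by exact_mod_cast hPQ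
  have hP0 : (0 : ℝ) ≤ P := Nat.cast_nonneg P
  have hQ0 : (0 : ℝ) ≤ Q := Nat.cast_nonneg Q
  have hPC : 3 ≤ (P : ℝ) + C := by linarith
  have hQC : 3 ≤ (Q : ℝ) + C := by linarith
  have ha2 : π / (P + C) ≤ π / 2 := by
    apply div_le_div_of_nonneg_left pi_pos.le (by norm_num); linarith
  have hb2 : π / (Q + C) ≤ π / 2 := by
    apply div_le_div_of_nonneg_left pi_pos.le (by norm_num); linarith
  have hb0 : (0 : ℝ) ≤ b := Nat.cast_nonneg b
  rcases cos_cases (a := π / (P + C)) (b := π / (Q + C)) (by positivity) (by positivity) ha2 hb2 hε0 hε1 with h | h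
  · obtain ⟨x, hx⟩ : ∃ x : ℝ, x = (P + C) / p := ⟨_, rfl⟩
    obtain ⟨y, hy⟩ : ∃ y : ℝ, y = (Q + C) / p := ⟨_, rfl⟩
    obtain ⟨e, he⟩ : ∃ e : ℝ, e = ((b : ℝ) - P - Q) / p := ⟨_, rfl⟩
    have hx0 : 0 < x := by rw [hx]; positivity
    have hy0 : 0 < y := by rw [hy]; positivity
    have he0 : 0 ≤ e := by rw [he]; apply div_nonneg _ hp0.le; linarith
    have hxp : x * p = P + C := by rw [hx]; field_simp
    have hyp : y * p = Q + C := by rw [hy]; field_simp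
    have hep : e * p = b - P - Q := by rw [he]; field_simp
    have fx := f_min hx0
    have fy := f_min hy0
    have hgx : η * p < |(P : ℝ) - p| → 3 / 2 + c₀ ≤ x + 1 / (2 * x ^ 2) := by
      intro hh
      rw [hc₀]
      apply f_gap hx0 (by positivity)
      have h1 : (P : ℝ) - p = p * (x - 1) - C := by linarith
      have h2 : |(P : ℝ) - p| ≤ p * |x - 1| + C := by
        rw [h1]
        calc |p * (x - 1) - C| ≤ |p * (x - 1)| + |C| := abs_sub _ _
          _ = p * |x - 1| + C := by rw [abs_mul, abs_of_pos hp0, abs_of_pos hC0]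
      have h3 : η₁ * p ≤ η * p := by gcongr
      have h4 : p * (η₁ / 2) ≤ p * |x - 1| := by linarith
      exact le_of_mul_le_mul_left h4 hp0
    have hgy : η * p < |(Q : ℝ) - p| → 3 / 2 + c₀ ≤ y + 1 / (2 * y ^ 2) := by
      intro hh
      rw [hc₀]
      apply f_gap hy0 (by positivity)
      have h1 : (Q : ℝ) - p = p * (y - 1) - C := by linarith
      have h2 : |(Q : ℝ) - p| ≤ p * |y - 1| + C := by
        rw [h1]
        calc |p * (y - 1) - C| ≤ |p * (y - 1)| + |C| := abs_sub _ _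
          _ = p * |y - 1| + C := by rw [abs_mul, abs_of_pos hp0, abs_of_pos hC0]
      have h3 : η₁ * p ≤ η * p := by gcongr
      have h4 : p * (η₁ / 2) ≤ p * |y - 1| := by linarith
      exact le_of_mul_le_mul_left h4 hp0
    have hsum : 3 + c₀ ≤ (x + 1 / (2 * x ^ 2)) + (y + 1 / (2 * y ^ 2)) + e := by
      rcases hbad with hh | hh | hh
      · have := hgx hh; linarith
      · have := hgy hh; linarith
      · have h1 : η₁ * p ≤ η * p := by gcongr
        have h2 : η₁ * p < e * p := by rw [hep]; linarith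
        have h3 : η₁ < e := lt_of_mul_lt_mul_right h2 hp0.le
        linarith
    obtain ⟨r, hr⟩ : ∃ r : ℝ, r = (1 - ε) ^ 2 := ⟨_, rfl⟩
    have hr0 : 0 ≤ r := by rw [hr]; positivity
    have hr1 : r ≤ 1 := by rw [hr]; exact pow_le_one₀ (by linarith) (by linarith)
    have hrc : 3 + c₀ / 2 ≤ r * (3 + c₀) := by
      have h1 : 1 - 2 * ε ≤ r := by
        have e1 : r = 1 - 2 * ε + ε ^ 2 := by rw [hr]; ring
        have e2 := sq_nonneg ε
        linarith
      have h2 : (1 - 2 * ε) * (3 + c₀) ≤ r * (3 + c₀) := by gcongr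
      have h3 : (1 - 2 * ε) * (3 + c₀) = 3 + c₀ - (3 * c₀ + c₀ ^ 2) / 8 := by rw [hε]; ring
      have h4 : c₀ ^ 2 ≤ c₀ := by rw [pow_two]; exact mul_le_of_le_one_left hc₀0.le hc₀1
      linarith
    have hmain : β * p ^ 3 / π ^ 2 * (r * (((π / (P + C)) ^ 2 + (π / (Q + C)) ^ 2) / 2)) =
        β * p * (r * (1 / (2 * x ^ 2) + 1 / (2 * y ^ 2))) := by
      rw [hx, hy]
      field_simp
    have h1 : β * p * (r * (1 / (2 * x ^ 2) + 1 / (2 * y ^ 2))) ≤
        β * p ^ 3 / π ^ 2 * (1 - cos (π / (P + C)) * cos (π / (Q + C))) := by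
      rw [← hmain, hr]
      apply mul_le_mul_of_nonneg_left h
      positivity
    have h2 : β * b = β * p * (x + y + e) - 2 * C * β := by
      have : (b : ℝ) = p * (x + y + e) - 2 * C := by linarith
      rw [this]; ring
    have h3 : r * (3 + c₀) ≤ r * ((x + 1 / (2 * x ^ 2)) + (y + 1 / (2 * y ^ 2)) + e) := by gcongr
    have h4 : r * (x + y + e) ≤ x + y + e := by
      have : 0 ≤ x + y + e := by positivity
      exact mul_le_of_le_one_left this hr1
    have h5 : 3 + c₀ / 2 ≤ x + y + e + r * (1 / (2 * x ^ 2) + 1 / (2 * y ^ 2)) := by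
      have : r * ((x + 1 / (2 * x ^ 2)) + (y + 1 / (2 * y ^ 2)) + e) =
        r * (x + y + e) + r * (1 / (2 * x ^ 2) + 1 / (2 * y ^ 2)) := by ring
      linarith
    obtain ⟨R, hR⟩ : ∃ R : ℝ, R = r * (1 / (2 * x ^ 2) + 1 / (2 * y ^ 2)) := ⟨_, rfl⟩
    rw [← hR] at h5 h1
    have h6 : β * p * (3 + c₀ / 2) ≤ β * p * (x + y + e + R) :=
      mul_le_mul_of_nonneg_left h5 (by positivity)
    have h7 : 2 * C * β ≤ β * p * (c₀ / 4) := by
      have h8 : 8 * C * β ≤ c₀ * p * β := mul_le_mul_of_nonneg_right hpb hβ.le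
      linarith
    rw [h2]
    calc β * p * (3 + c₀ / 4) = β * p * (3 + c₀ / 2) - β * p * (c₀ / 4) := by ring
      _ ≤ β * p * (x + y + e + R) - 2 * C * β := by linarith
      _ = β * p * (x + y + e) - 2 * C * β + β * p * R := by ring
      _ ≤ _ := by linarith
  · have h1 : β * p ^ 3 / π ^ 2 * (2 / π ^ 2 * ε) ≤
        β * p ^ 3 / π ^ 2 * (1 - cos (π / (P + C)) * cos (π / (Q + C))) := by
      apply mul_le_mul_of_nonneg_left h; positivity
    have h2 : β * p * 4 ≤ β * p ^ 3 / π ^ 2 * (2 / π ^ 2 * ε) := by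
      have e1 : β * p ^ 3 / π ^ 2 * (2 / π ^ 2 * ε) = β * p * (2 * (ε * p ^ 2) / π ^ 4) := by
        field_simp
      rw [e1]
      apply mul_le_mul_of_nonneg_left _ (by positivity)
      rw [le_div_iff₀ (by positivity)]
      linarith
    have h3 : β * p * (3 + c₀ / 4) ≤ β * p * 4 := by
      apply mul_le_mul_of_nonneg_left _ (by positivity)
      linarith
    have h4 : 0 ≤ β * b := by positivity
    linarith



/-- without a gap -/
theorem expo0 : ∀ c : ℝ, 0 < c → c ≤ 1 → ∀ C : ℝ, 3 ≤ C → ∃ p₀ : ℝ, 1 ≤ p₀ ∧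
    ∀ β p : ℝ, 0 < β → p₀ ≤ p → ∀ P Q b : ℕ, P + Q ≤ b →
    β * p * (3 - c) ≤
      β * b + β * p ^ 3 / π ^ 2 * (1 - cos (π / (P + C)) * cos (π / (Q + C))) := by
  intro c hc hc1 C hC
  obtain ⟨ε, hε⟩ : ∃ ε : ℝ, ε = c / 12 := ⟨_, rfl⟩
  have hε0 : 0 < ε := by rw [hε]; positivity
  have hε1 : ε ≤ 1 := by rw [hε]; linarith
  refine ⟨4 * C / c + 2 * π ^ 4 / ε + 1, ?_, ?_⟩
  · have : 0 ≤ 4 * C / c + 2 * π ^ 4 / ε := by positivity
    linarith
  intro β p hβ hp P Q b hPQ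
  have hC0 : 0 < C := by linarith
  have t2 : 0 ≤ 4 * C / c := by positivity
  have t3 : 0 ≤ 2 * π ^ 4 / ε := by positivity
  have hp1 : 1 ≤ p := by linarith
  have hp0 : 0 < p := by linarith
  have hpb : 4 * C ≤ c * p := by
    have : 4 * C / c ≤ p := by linarith
    rw [div_le_iff₀ hc] at this; linarith
  have hpc : 2 * π ^ 4 ≤ ε * p ^ 2 := by
    have h1 : 2 * π ^ 4 / ε ≤ p := by linarith
    rw [div_le_iff₀ hε0] at h1
    have h2 : p ≤ p ^ 2 := by rw [pow_two]; exact le_mul_of_one_le_left hp0.le hp1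
    have h3 : p * ε ≤ p ^ 2 * ε := mul_le_mul_of_nonneg_right h2 hε0.le
    linarith
  have hPQr : (P : ℝ) + Q ≤ b := by exact_mod_cast hPQ
  have hP0 : (0 : ℝ) ≤ P := Nat.cast_nonneg P
  have hQ0 : (0 : ℝ) ≤ Q := Nat.cast_nonneg Q
  have hPC : 3 ≤ (P : ℝ) + C := by linarith
  have hQC : 3 ≤ (Q : ℝ) + C := by linarith
  have ha2 : π / (P + C) ≤ π / 2 := by
    apply div_le_div_of_nonneg_left pi_pos.le (by norm_num); linarith
  have hb2 : π / (Q + C) ≤ π / 2 := by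
    apply div_le_div_of_nonneg_left pi_pos.le (by norm_num); linarith
  have hb0 : (0 : ℝ) ≤ b := Nat.cast_nonneg b
  rcases cos_cases (a := π / (P + C)) (b := π / (Q + C)) (by positivity) (by positivity) ha2 hb2 hε0 hε1 with h | h
  · obtain ⟨x, hx⟩ : ∃ x : ℝ, x = (P + C) / p := ⟨_, rfl⟩
    obtain ⟨y, hy⟩ : ∃ y : ℝ, y = (Q + C) / p := ⟨_, rfl⟩
    have hx0 : 0 < x := by rw [hx]; positivity
    have hy0 : 0 < y := by rw [hy]; positivity
    have hxp : x * p = P + C := by rw [hx]; field_simp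
    have hyp : y * p = Q + C := by rw [hy]; field_simp
    have fx := f_min hx0
    have fy := f_min hy0
    obtain ⟨r, hr⟩ : ∃ r : ℝ, r = (1 - ε) ^ 2 := ⟨_, rfl⟩
    have hr0 : 0 ≤ r := by rw [hr]; positivity
    have hr1 : r ≤ 1 := by rw [hr]; exact pow_le_one₀ (by linarith) (by linarith)
    have hrc : 3 - c / 2 ≤ r * 3 := by
      have h1 : 1 - 2 * ε ≤ r := by
        have e1 : r = 1 - 2 * ε + ε ^ 2 := by rw [hr]; ring
        have e2 := sq_nonneg ε
        linarith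
      rw [hε] at h1
      linarith
    have hmain : β * p ^ 3 / π ^ 2 * (r * (((π / (P + C)) ^ 2 + (π / (Q + C)) ^ 2) / 2)) =
        β * p * (r * (1 / (2 * x ^ 2) + 1 / (2 * y ^ 2))) := by
      rw [hx, hy]
      field_simp
    have h1 : β * p * (r * (1 / (2 * x ^ 2) + 1 / (2 * y ^ 2))) ≤
        β * p ^ 3 / π ^ 2 * (1 - cos (π / (P + C)) * cos (π / (Q + C))) := by
      rw [← hmain, hr]
      apply mul_le_mul_of_nonneg_left h
      positivity
    have h2 : β * p * (x + y) - 2 * C * β ≤ β * b := by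
      have h9 : p * (x + y) - 2 * C ≤ b := by linarith
      have h10 := mul_le_mul_of_nonneg_left h9 hβ.le
      linarith
    have h3 : r * 3 ≤ r * ((x + 1 / (2 * x ^ 2)) + (y + 1 / (2 * y ^ 2))) := by
      apply mul_le_mul_of_nonneg_left _ hr0
      linarith
    have h4 : r * (x + y) ≤ x + y := mul_le_of_le_one_left (by positivity) hr1
    have h5 : 3 - c / 2 ≤ x + y + r * (1 / (2 * x ^ 2) + 1 / (2 * y ^ 2)) := by
      have : r * ((x + 1 / (2 * x ^ 2)) + (y + 1 / (2 * y ^ 2))) =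
        r * (x + y) + r * (1 / (2 * x ^ 2) + 1 / (2 * y ^ 2)) := by ring
      linarith
    obtain ⟨R, hR⟩ : ∃ R : ℝ, R = r * (1 / (2 * x ^ 2) + 1 / (2 * y ^ 2)) := ⟨_, rfl⟩
    rw [← hR] at h5 h1
    have h6 : β * p * (3 - c / 2) ≤ β * p * (x + y + R) :=
      mul_le_mul_of_nonneg_left h5 (by positivity)
    have h7 : 2 * C * β ≤ β * p * (c / 2) := by
      have h8 : 4 * C * β ≤ c * p * β := mul_le_mul_of_nonneg_right hpb hβ.le
      linarith
    calc β * p * (3 - c) = β * p * (3 - c / 2) - β * p * (c / 2) := by ring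
      _ ≤ β * p * (x + y + R) - 2 * C * β := by linarith
      _ = β * p * (x + y) - 2 * C * β + β * p * R := by ring
      _ ≤ _ := by linarith
  · have h1 : β * p ^ 3 / π ^ 2 * (2 / π ^ 2 * ε) ≤
        β * p ^ 3 / π ^ 2 * (1 - cos (π / (P + C)) * cos (π / (Q + C))) := by
      apply mul_le_mul_of_nonneg_left h; positivity
    have h2 : β * p * 4 ≤ β * p ^ 3 / π ^ 2 * (2 / π ^ 2 * ε) := by
      have e1 : β * p ^ 3 / π ^ 2 * (2 / π ^ 2 * ε) = β * p * (2 * (ε * p ^ 2) / π ^ 4) := by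
        field_simp
      rw [e1]
      apply mul_le_mul_of_nonneg_left _ (by positivity)
      rw [le_div_iff₀ (by positivity)]
      linarith
    have h3 : β * p * (3 - c) ≤ β * p * 4 := by
      apply mul_le_mul_of_nonneg_left _ (by positivity)
      linarith
    have h4 : 0 ≤ β * b := by positivity
    linarith

end Pool.Agent.H51.DQ
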