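import Pool.Graph.R_seed8.H666R3.DM.OneD
import Pool.Graph.R_seed8.H308R3.DM.UB_helper603

set_option autoImplicit false

/-! # One-dimensional bound with base `2` (after `Pool.Graph.R_seed8.H666R3.DM.OneD`) -/

namespace Pool.Agent.H51.DQ

open Finset Filter Topology
open Pool.Agent.H308R3.DM Pool.Agent.H666R3.DM
open scoped Classical BigOperators

noncomputable section

theorem R0_le2 {C : ℝ} (hC : 3 ≤ C) : 1 + 2 / (C - 1) ≤ 2 := by
  have : 2 / (C - 1) ≤ 1 := by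
    rw [div_le_one (by linarith)]
    linarith
  linarith

theorem hh_zero_le2 {C : ℝ} (hC : 3 ≤ C) (P : Finset ℤ) (K : ℕ) (x : ℤ) (hx : |x| ≤ (K : ℤ)) :
    hh C P K 0 ≤ 2 ^ (K + 1) * hh C P K x := by
  have hR := R0_ge hC
  have hRC := R0_le2 hC
  have hpow : ∀ d : ℕ, d ≤ K → (1 + 2 / (C - 1)) ^ d ≤ 2 ^ (K + 1) := by
    intro d hd
    calc (1 + 2 / (C - 1)) ^ d ≤ 2 ^ d := by gcongr
      _ ≤ 2 ^ (K + 1) := by
          apply pow_le_pow_right₀ (by norm_num) (by omega)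
  rw [abs_le] at hx
  rcases le_total 0 x with h0 | h0
  · obtain ⟨d, rfl⟩ := Int.eq_ofNat_of_zero_le h0
    have e1 : (((d : ℕ) : ℤ) + K + 1).toNat = (K + 1) + d := by omega
    have e2 : ((0 : ℤ) + K + 1).toNat = K + 1 := by omega
    unfold hh
    rw [e1, e2]
    refine (HH_le_add hC P K (K + 1) d).trans ?_
    exact mul_le_mul_of_nonneg_right (hpow d (by omega)) (HH_pos hC P K _).le
  · obtain ⟨d, hd⟩ := Int.eq_ofNat_of_zero_le (show 0 ≤ -x by omega)
    have e1 : ((0 : ℤ) + K + 1).toNat = (x + K + 1).toNat + d := by omega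
    unfold hh
    rw [e1]
    refine (HH_add_le hC P K _ d).trans ?_
    exact mul_le_mul_of_nonneg_right (hpow d (by omega)) (HH_pos hC P K _).le

/-- the bound with base `2` in place of `C` -/
theorem oneDX : ∀ θ : ℝ, 0 < θ → ∃ C : ℝ, 3 ≤ C ∧ ∀ (n K : ℕ) (P : Finset ℤ),
    (∀ x ∈ P, |x| ≤ (K : ℤ)) →
    (∑ σ : Fin n → Bool, if (∀ k ≤ n, |upos σ k| ≤ (K : ℤ)) then
      Real.exp (-θ * (((univ : Finset (Fin n)).filter (fun i => upos σ i ∉ P)).card : ℝ)) else 0)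
    ≤ 2 ^ n * 2 ^ (K + 1) * (Real.cos (Real.pi / (P.card + C))) ^ n := by
  intro θ hθ
  obtain ⟨C, hC, hCp⟩ := exists_C θ hθ
  refine ⟨C, hC, fun n K P hP => ?_⟩
  have h0 := om_pos P.card hC
  have h1 := om_mul P.card hC
  have hcos : 0 ≤ Real.cos (om C P.card) := by
    apply Real.cos_nonneg_of_neg_pi_div_two_le_of_le
    · linarith [Real.pi_pos]
    · have hp0 : (0 : ℝ) ≤ (P.card : ℝ) := Nat.cast_nonneg _
      nlinarith
  have key := Z_le θ K P (hh C P K) (fun x => (hh_pos hC P K x).le) _ hcos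
    (fun x hx => hh_super hC P K θ (hCp _) x hx) n 0
  have hpos0 := hh_pos hC P K 0
  have hstep : (∑ σ : Fin n → Bool, if (∀ k ≤ n, |upos σ k| ≤ (K : ℤ)) then
      Real.exp (-θ * (((univ : Finset (Fin n)).filter (fun i => upos σ i ∉ P)).card : ℝ)) else 0)
      * hh C P K 0 ≤ (2 : ℝ) ^ (K + 1) * Z θ K P (hh C P K) n 0 := by
    unfold Z
    rw [Finset.sum_mul, Finset.mul_sum]
    refine Finset.sum_le_sum fun σ _ => ?_
    simp only [zero_add, coe_univ]
    by_cases hk : ∀ k ≤ n, |upos σ k| ≤ (K : ℤ)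
    · rw [if_pos hk, if_pos hk]
      have h2 := hh_zero_le2 hC P K (upos σ n) (hk n le_rfl)
      have h3 := Real.exp_pos (-θ * (((range n).filter (fun i => upos σ i ∉ P)).card : ℝ))
      calc _ ≤ Real.exp (-θ * (((range n).filter (fun i => upos σ i ∉ P)).card : ℝ)) *
            ((2 : ℝ) ^ (K + 1) * hh C P K (upos σ n)) := by
              exact mul_le_mul_of_nonneg_left h2 h3.le
        _ = _ := by ring
    · rw [if_neg hk, if_neg hk]
      simp
  have h5 : (∑ σ : Fin n → Bool, if (∀ k ≤ n, |upos σ k| ≤ (K : ℤ)) then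
      Real.exp (-θ * (((univ : Finset (Fin n)).filter (fun i => upos σ i ∉ P)).card : ℝ)) else 0)
      * hh C P K 0 ≤ (2 ^ n * (2 : ℝ) ^ (K + 1) * (Real.cos (Real.pi / (P.card + C))) ^ n) * hh C P K 0 := by
    refine hstep.trans ?_
    have hCK : 0 ≤ (2 : ℝ) ^ (K + 1) := by positivity
    refine (mul_le_mul_of_nonneg_left key hCK).trans (le_of_eq ?_)
    unfold om
    rw [mul_pow]
    ring
  exact le_of_mul_le_mul_right h5 hpos0


/-- the statement UB with base `2` in place of `C` -/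
def UBX : Prop := ∀ θ : ℝ, 0 < θ → ∃ C : ℝ, 3 ≤ C ∧ ∀ (n b k K : ℕ) (P Q : Finset ℤ),
  (∀ x ∈ P, |x| ≤ (K : ℤ)) → (∀ x ∈ Q, |x| ≤ (K : ℤ)) →
  (((univ : Finset (Fin n → Stp)).filter (fun ω =>
      (∀ x ∈ rng 0 ω, |x.1| ≤ (K : ℤ) ∧ |x.2| ≤ (K : ℤ)) ∧ (bd (rng 0 ω)).card ≤ b ∧
      pU (inn (rng 0 ω)) ⊆ P ∧ pV (inn (rng 0 ω)) ⊆ Q)).card : ℝ)
    ≤ 4 ^ n * (4 ^ b * (3 / 4) ^ k + Real.exp (2 * θ * k) * 2 ^ (2 * (K + 1)) *
      (Real.cos (Real.pi / (P.card + C)) * Real.cos (Real.pi / (Q.card + C))) ^ n)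

open UB603 in
theorem ubX : TaskThin → UBX := by
  intro hThin θ hθ
  obtain ⟨C, hC, hbound⟩ := oneDX θ hθ
  refine ⟨C, hC, ?_⟩
  intro n b k K P Q hP hQ
  set W : Finset (Fin n → Stp) := (univ : Finset (Fin n → Stp)).filter (fun ω =>
      (∀ x ∈ rng 0 ω, |x.1| ≤ (K : ℤ) ∧ |x.2| ≤ (K : ℤ)) ∧ (bd (rng 0 ω)).card ≤ b ∧
      pU (inn (rng 0 ω)) ⊆ P ∧ pV (inn (rng 0 ω)) ⊆ Q) with hW
  obtain ⟨thin, hthin⟩ : ∃ thin : Pt → Prop, ∀ x, thin x ↔ (x.1 ∉ P ∨ x.2 ∉ Q) :=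
    ⟨fun x => x.1 ∉ P ∨ x.2 ∉ Q, fun x => Iff.rfl⟩
  set W1 : Finset (Fin n → Stp) := (univ : Finset (Fin n → Stp)).filter (fun ω =>
      (∀ x ∈ rng 0 ω, thin x → x ∈ bd (rng 0 ω)) ∧ (bd (rng 0 ω)).card ≤ b ∧
      k ≤ nthin thin ω) with hW1
  set W2 : Finset (Fin n → Stp) := (univ : Finset (Fin n → Stp)).filter (fun ω =>
      (∀ x ∈ rng 0 ω, |x.1| ≤ (K : ℤ) ∧ |x.2| ≤ (K : ℤ)) ∧
      nthin thin ω < k) with hW2
  have hsub : W ⊆ W1 ∪ W2 := by
    intro ω hω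
    simp only [hW, Finset.mem_filter, Finset.mem_univ, true_and] at hω
    obtain ⟨h1, h2, h3, h4⟩ := hω
    rw [Finset.mem_union]
    by_cases hk : k ≤ nthin thin ω
    · left
      simp only [hW1, Finset.mem_filter, Finset.mem_univ, true_and]
      refine ⟨?_, h2, hk⟩
      intro x hx hth
      by_contra hbd
      have hin : x ∈ inn (rng 0 ω) := by
        unfold inn
        rw [Finset.mem_filter]
        refine ⟨hx, fun s => ?_⟩
        by_contra hs
        apply hbd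
        unfold bd
        rw [Finset.mem_filter]
        exact ⟨hx, s, hs⟩
      rcases (hthin x).1 hth with h | h
      · exact h (h3 (Finset.mem_image_of_mem _ hin))
      · exact h (h4 (Finset.mem_image_of_mem _ hin))
    · right
      simp only [hW2, Finset.mem_filter, Finset.mem_univ, true_and]
      exact ⟨h1, not_le.1 hk⟩
  have hc1 : (W1.card : ℝ) ≤ 4 ^ n * 4 ^ b * (3 / 4) ^ k := hThin n b k thin
  have hS1 := hbound n K P hP
  have hS2 := hbound n K Q hQ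
  have hc2 : (W2.card : ℝ) ≤ Real.exp (2 * θ * k) *
      ((∑ σ : Fin n → Bool, fP θ K P σ) * ∑ σ : Fin n → Bool, fP θ K Q σ) := by
    rw [← sum_split, Finset.mul_sum]
    have e1 : (W2.card : ℝ) = ∑ ω ∈ W2, (1 : ℝ) := by simp
    rw [e1]
    refine le_trans (Finset.sum_le_sum (g := fun ω : Fin n → Stp => Real.exp (2 * θ * k) *
      (fP θ K P (fun i => (ω i).1) * fP θ K Q (fun i => (ω i).2))) ?_)
      (Finset.sum_le_univ_sum_of_nonneg ?_)
    · intro ω hω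
      simp only [hW2, Finset.mem_filter, Finset.mem_univ, true_and] at hω
      obtain ⟨h1, h2⟩ := hω
      have a1 : nout P (fun i => (ω i).1) ≤ k := (nout_fst P thin (fun x hx => (hthin x).2 (Or.inl hx)) ω).trans h2.le
      have a2 : nout Q (fun i => (ω i).2) ≤ k := (nout_snd Q thin (fun x hx => (hthin x).2 (Or.inr hx)) ω).trans h2.le
      have b1 : ∀ k ≤ n, |upos (fun i => (ω i).1) k| ≤ (K : ℤ) := by
        intro k hk
        rw [← pos_fst]
        exact (h1 _ (pos_mem ω hk)).1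
      have b2 : ∀ k ≤ n, |upos (fun i => (ω i).2) k| ≤ (K : ℤ) := by
        intro k hk
        rw [← pos_snd]
        exact (h1 _ (pos_mem ω hk)).2
      have c1 := fP_lower hθ K k P _ b1 a1
      have c2 := fP_lower hθ K k Q _ b2 a2
      have e2 : Real.exp (2 * θ * k) = Real.exp (θ * k) * Real.exp (θ * k) := by
        rw [← Real.exp_add]; congr 1; ring
      rw [e2]
      calc (1 : ℝ) = 1 * 1 := by ring
        _ ≤ (Real.exp (θ * k) * fP θ K P (fun i => (ω i).1)) *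
            (Real.exp (θ * k) * fP θ K Q (fun i => (ω i).2)) :=
          mul_le_mul c1 c2 zero_le_one (le_trans zero_le_one c1)
        _ = _ := by ring
    · intro ω
      exact mul_nonneg (Real.exp_pos _).le (mul_nonneg (fP_nonneg _ _ _ _) (fP_nonneg _ _ _ _))
  have hS1' : (∑ σ : Fin n → Bool, fP θ K P σ)
      ≤ 2 ^ n * (2 : ℝ) ^ (K + 1) * (Real.cos (Real.pi / (P.card + C))) ^ n := hS1
  have hS2' : (∑ σ : Fin n → Bool, fP θ K Q σ)
      ≤ 2 ^ n * (2 : ℝ) ^ (K + 1) * (Real.cos (Real.pi / (Q.card + C))) ^ n := hS2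
  have n1 : 0 ≤ ∑ σ : Fin n → Bool, fP θ K P σ :=
    Finset.sum_nonneg fun σ _ => fP_nonneg _ _ _ _
  have n2 : 0 ≤ ∑ σ : Fin n → Bool, fP θ K Q σ :=
    Finset.sum_nonneg fun σ _ => fP_nonneg _ _ _ _
  have hprod := mul_le_mul hS1' hS2' n2 (le_trans n1 hS1')
  have hc : (W.card : ℝ) ≤ W1.card + W2.card := by
    have := (Finset.card_le_card hsub).trans (Finset.card_union_le W1 W2)
    exact_mod_cast this
  have h4 : (4 : ℝ) ^ n = 2 ^ n * 2 ^ n := by
    rw [← mul_pow]; norm_num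
  calc (W.card : ℝ) ≤ W1.card + W2.card := hc
    _ ≤ 4 ^ n * 4 ^ b * (3 / 4) ^ k + Real.exp (2 * θ * k) *
        ((2 ^ n * (2 : ℝ) ^ (K + 1) * (Real.cos (Real.pi / (P.card + C))) ^ n) *
          (2 ^ n * (2 : ℝ) ^ (K + 1) * (Real.cos (Real.pi / (Q.card + C))) ^ n)) :=
        add_le_add hc1 (hc2.trans (mul_le_mul_of_nonneg_left hprod (Real.exp_pos _).le))
    _ = _ := by
        rw [h4, mul_pow, two_mul (K + 1), pow_add]
        ring

end

end Pool.Agent.H51.DQ
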