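import Pool.Graph.R_seed8.H811R3.DM.Bad1
import Pool.Agent.H51.DQ.OneD
import Pool.Agent.H51.DQ.Expo

set_option autoImplicit false

/-! # Concentration of the sizes with explicit constants (after `Pool.Graph.R_seed8.H811R3.DM`) -/

namespace Pool.Agent.H51.DQ

open Finset Filter Topology
open Pool.Agent.H308R3.DM Pool.Agent.H811R3.DM

open Classical in
/-- the bound for the number of paths, weighted -/
theorem sum_leX (hI : TaskIso) (hT : TaskInt) {θ C : ℝ}
    (hUB : ∀ (n b k K : ℕ) (P Q : Finset ℤ),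
      (∀ x ∈ P, |x| ≤ (K : ℤ)) → (∀ x ∈ Q, |x| ≤ (K : ℤ)) →
      (((univ : Finset (Fin n → Stp)).filter (fun ω =>
      (∀ x ∈ rng 0 ω, |x.1| ≤ (K : ℤ) ∧ |x.2| ≤ (K : ℤ)) ∧ (bd (rng 0 ω)).card ≤ b ∧
      pU (inn (rng 0 ω)) ⊆ P ∧ pV (inn (rng 0 ω)) ⊆ Q)).card : ℝ)
    ≤ 4 ^ n * (4 ^ b * (3 / 4) ^ k + Real.exp (2 * θ * k) * (2 : ℝ) ^ (2 * (K + 1)) *
      (Real.cos (Real.pi / (P.card + C)) * Real.cos (Real.pi / (Q.card + C))) ^ n))
    (𝓐 : Set (Finset Pt)) (Cnd : ℕ → ℕ → ℕ → Prop)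
    (hA : ∀ G ∈ 𝓐, Cnd (bd G).card (pU (inn G)).card (pV (inn G)).card)
    (β t : ℝ) (hβ : 0 < β) (n k K : ℕ) (hK : 4 * ps β t ≤ K) :
    ∑ ω : Fin n → Stp, (if rng 0 ω ∈ 𝓐 then wt β (rng 0 ω) else 0) ≤
      4 ^ n * (Real.exp (-β * (4 * ps β t)) + ∑ b ∈ range (K + 1), ∑ P ∈ PK K, ∑ Q ∈ PK K,
        if Cnd b P.card Q.card then
          Real.exp (-β * b) * (4 ^ b * (3 / 4) ^ k + Real.exp (2 * θ * k) * (2 : ℝ) ^ (2 * (K + 1)) *
      (Real.cos (Real.pi / (P.card + C)) * Real.cos (Real.pi / (Q.card + C))) ^ n) else 0) := by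
  have hpt : ∀ ω : Fin n → Stp, (if rng 0 ω ∈ 𝓐 then wt β (rng 0 ω) else 0) ≤
      Real.exp (-β * (4 * ps β t)) + ∑ b ∈ range (K + 1), ∑ P ∈ PK K, ∑ Q ∈ PK K,
        (if Cnd b P.card Q.card then
          (if ((∀ x ∈ rng 0 ω, |x.1| ≤ (K : ℤ) ∧ |x.2| ≤ (K : ℤ)) ∧ (bd (rng 0 ω)).card ≤ b ∧
            pU (inn (rng 0 ω)) ⊆ P ∧ pV (inn (rng 0 ω)) ⊆ Q) then Real.exp (-β * b) else 0) else 0) := by
    intro ω
    have hnn : ∀ b P Q, 0 ≤ (if Cnd b (Finset.card (P : Finset ℤ)) (Finset.card (Q : Finset ℤ)) then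
          (if ((∀ x ∈ rng 0 ω, |x.1| ≤ (K : ℤ) ∧ |x.2| ≤ (K : ℤ)) ∧ (bd (rng 0 ω)).card ≤ b ∧
            pU (inn (rng 0 ω)) ⊆ P ∧ pV (inn (rng 0 ω)) ⊆ Q) then Real.exp (-β * b) else 0) else 0) := by
      intro b P Q
      split_ifs <;> positivity
    split_ifs with hbad
    · by_cases hb : ((bd (rng 0 ω)).card : ℝ) ≤ 4 * ps β t
      · have hbK : (bd (rng 0 ω)).card ≤ K := by exact_mod_cast hb.trans hK
        have hnear := near hI hT ω hbK
        have hP : pU (inn (rng 0 ω)) ∈ PK K := by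
          rw [mem_PK]
          intro x hx
          obtain ⟨y, hy, rfl⟩ := mem_image.mp hx
          exact (hnear y (inn_subset _ hy)).1
        have hQ : pV (inn (rng 0 ω)) ∈ PK K := by
          rw [mem_PK]
          intro x hx
          obtain ⟨y, hy, rfl⟩ := mem_image.mp hx
          exact (hnear y (inn_subset _ hy)).2
        have hcond : Cnd (bd (rng 0 ω)).card (pU (inn (rng 0 ω))).card (pV (inn (rng 0 ω))).card :=
          hA _ hbad
        have h0 : 0 ≤ Real.exp (-β * (4 * ps β t)) := (Real.exp_pos _).le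
        have h1 : wt β (rng 0 ω) ≤ ∑ b ∈ range (K + 1), ∑ P ∈ PK K, ∑ Q ∈ PK K,
            (if Cnd b P.card Q.card then
          (if ((∀ x ∈ rng 0 ω, |x.1| ≤ (K : ℤ) ∧ |x.2| ≤ (K : ℤ)) ∧ (bd (rng 0 ω)).card ≤ b ∧
            pU (inn (rng 0 ω)) ⊆ P ∧ pV (inn (rng 0 ω)) ⊆ Q) then Real.exp (-β * b) else 0) else 0) := by
          refine le_trans ?_ (single_le_sum (f := fun b => ∑ P ∈ PK K, ∑ Q ∈ PK K,
            (if Cnd b P.card Q.card then
          (if ((∀ x ∈ rng 0 ω, |x.1| ≤ (K : ℤ) ∧ |x.2| ≤ (K : ℤ)) ∧ (bd (rng 0 ω)).card ≤ b ∧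
            pU (inn (rng 0 ω)) ⊆ P ∧ pV (inn (rng 0 ω)) ⊆ Q) then Real.exp (-β * b) else 0) else 0))
            (fun b _ => sum_nonneg fun P _ => sum_nonneg fun Q _ => hnn b P Q)
            (mem_range.mpr (Nat.lt_succ_of_le hbK)))
          refine le_trans ?_ (single_le_sum (f := fun P => ∑ Q ∈ PK K,
            (if Cnd (bd (rng 0 ω)).card (Finset.card P) Q.card then
          (if ((∀ x ∈ rng 0 ω, |x.1| ≤ (K : ℤ) ∧ |x.2| ≤ (K : ℤ)) ∧ (bd (rng 0 ω)).card ≤ (bd (rng 0 ω)).card ∧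
            pU (inn (rng 0 ω)) ⊆ P ∧ pV (inn (rng 0 ω)) ⊆ Q) then Real.exp (-β * (bd (rng 0 ω)).card) else 0) else 0))
            (fun P _ => sum_nonneg fun Q _ => hnn _ P Q) hP)
          refine le_trans ?_ (single_le_sum (f := fun Q =>
            (if Cnd (bd (rng 0 ω)).card (Finset.card (pU (inn (rng 0 ω)))) (Finset.card Q) then
          (if ((∀ x ∈ rng 0 ω, |x.1| ≤ (K : ℤ) ∧ |x.2| ≤ (K : ℤ)) ∧ (bd (rng 0 ω)).card ≤ (bd (rng 0 ω)).card ∧
            pU (inn (rng 0 ω)) ⊆ pU (inn (rng 0 ω)) ∧ pV (inn (rng 0 ω)) ⊆ Q) then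
              Real.exp (-β * (bd (rng 0 ω)).card) else 0) else 0))
            (fun Q _ => hnn _ _ Q) hQ)
          rw [if_pos hcond, if_pos ⟨hnear, le_rfl, Subset.refl _, Subset.refl _⟩]
          exact le_rfl
        linarith
      · push Not at hb
        have h1 : wt β (rng 0 ω) ≤ Real.exp (-β * (4 * ps β t)) := by
          unfold wt
          apply Real.exp_le_exp.mpr
          nlinarith
        have h2 := sum_nonneg (s := range (K + 1)) (fun b _ => sum_nonneg (s := PK K) fun P _ =>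
          sum_nonneg (s := PK K) fun Q _ => hnn b P Q)
        linarith
    · have h2 := sum_nonneg (s := range (K + 1)) (fun b _ => sum_nonneg (s := PK K) fun P _ =>
          sum_nonneg (s := PK K) fun Q _ => hnn b P Q)
      have h3 : 0 ≤ Real.exp (-β * (4 * ps β t)) := (Real.exp_pos _).le
      linarith
  refine (sum_le_sum fun ω _ => hpt ω).trans ?_
  rw [sum_add_distrib, sum_const, card_univ, Fintype.card_fun, Fintype.card_fin, nsmul_eq_mul, mul_add]
  have hc4 : ((Fintype.card Stp ^ n : ℕ) : ℝ) = 4 ^ n := by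
    have : Fintype.card Stp = 4 := by decide
    rw [this]; norm_num
  rw [hc4]
  apply add_le_add le_rfl
  rw [sum_comm, mul_sum]
  apply sum_le_sum
  intro b _
  rw [sum_comm, mul_sum]
  apply sum_le_sum
  intro P hP
  rw [sum_comm, mul_sum]
  apply sum_le_sum
  intro Q hQ
  by_cases hc : Cnd b P.card Q.card
  · simp only [if_pos hc]
    have h := hUB n b k K P Q (mem_PK.mp hP) (mem_PK.mp hQ)
    rw [← sum_filter, sum_const, nsmul_eq_mul]
    have h2 : 0 ≤ Real.exp (-β * b) := (Real.exp_pos _).le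
    calc _ ≤ (4 ^ n * (4 ^ b * (3 / 4) ^ k + Real.exp (2 * θ * k) * (2 : ℝ) ^ (2 * (K + 1)) *
        (Real.cos (Real.pi / (P.card + C)) * Real.cos (Real.pi / (Q.card + C))) ^ n)) * Real.exp (-β * b) := by
          apply mul_le_mul_of_nonneg_right _ h2
          convert h using 2
      _ = _ := by ring
  · simp only [if_neg hc, sum_const_zero, mul_zero, le_refl]

open Classical in
/-- numerator bound -/
theorem num_leX (hI : TaskIso) (hT : TaskInt) {θ C : ℝ}
    (hUB : ∀ (n b k K : ℕ) (P Q : Finset ℤ),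
      (∀ x ∈ P, |x| ≤ (K : ℤ)) → (∀ x ∈ Q, |x| ≤ (K : ℤ)) →
      (((univ : Finset (Fin n → Stp)).filter (fun ω =>
      (∀ x ∈ rng 0 ω, |x.1| ≤ (K : ℤ) ∧ |x.2| ≤ (K : ℤ)) ∧ (bd (rng 0 ω)).card ≤ b ∧
      pU (inn (rng 0 ω)) ⊆ P ∧ pV (inn (rng 0 ω)) ⊆ Q)).card : ℝ)
    ≤ 4 ^ n * (4 ^ b * (3 / 4) ^ k + Real.exp (2 * θ * k) * (2 : ℝ) ^ (2 * (K + 1)) *
      (Real.cos (Real.pi / (P.card + C)) * Real.cos (Real.pi / (Q.card + C))) ^ n))
    (𝓐 : Set (Finset Pt)) (Cnd : ℕ → ℕ → ℕ → Prop)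
    (hA : ∀ G ∈ 𝓐, Cnd (bd G).card (pU (inn G)).card (pV (inn G)).card)
    (β t : ℝ) (hβ : 0 < β) (ht : 0 ≤ t) (k K : ℕ) (hK : 4 * ps β t ≤ K) :
    Es t (fun G => if G ∈ 𝓐 then wt β G else 0) ≤
      Real.exp (-β * (4 * ps β t)) + ∑ j ∈ range (K + 1) ×ˢ (PK K ×ˢ PK K),
        ((if Cnd j.1 j.2.1.card j.2.2.card then Real.exp (-β * j.1) * (4 ^ j.1 * (3 / 4) ^ k) else 0) +
         (if Cnd j.1 j.2.1.card j.2.2.card then Real.exp (-β * j.1) *
          (Real.exp (2 * θ * k) * (2 : ℝ) ^ (2 * (K + 1))) else 0) *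
          Real.exp (-t * (1 - Real.cos (Real.pi / (j.2.1.card + C)) * Real.cos (Real.pi / (j.2.2.card + C))))) := by
  unfold Es
  apply poi_le _ _ _ ht
  · intro n
    apply div_nonneg _ (by positivity)
    apply sum_nonneg
    intro ω _
    beta_reduce
    split_ifs
    · exact wt_nonneg _ _
    · exact le_rfl
  · intro n
    rw [div_le_iff₀ (by positivity)]
    refine (sum_leX hI hT hUB 𝓐 Cnd hA β t hβ n k K hK).trans (le_of_eq ?_)
    rw [mul_comm]
    congr 2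
    rw [sum_product]
    apply sum_congr rfl
    intro b _
    rw [sum_product]
    apply sum_congr rfl
    intro P _
    apply sum_congr rfl
    intro Q _
    by_cases hc : Cnd b P.card Q.card
    · simp only [if_pos hc]
      ring
    · simp only [if_neg hc]
      ring

open Classical in
/-- total bound -/
theorem tot_leX {c₁ s θ C β p t : ℝ} (k K : ℕ) (hc₁ : 0 < c₁) (hθ : θ = c₁ / 160) (hC : 3 ≤ C) (hβ : 0 < β)
    (hK : (K : ℝ) ≤ 4 * p + 1) (hk1 : 40 * β * p ≤ k) (hk2 : (k : ℝ) ≤ 40 * β * p + 1)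
    (Cnd : ℕ → ℕ → ℕ → Prop)
    (hexpo : ∀ P Q b : ℕ, Cnd b P Q → β * p * s ≤
      β * b + t * (1 - Real.cos (Real.pi / (P + C)) * Real.cos (Real.pi / (Q + C)))) :
    ∑ j ∈ range (K + 1) ×ˢ (PK K ×ˢ PK K),
        ((if Cnd j.1 j.2.1.card j.2.2.card then Real.exp (-β * j.1) * (4 ^ j.1 * (3 / 4) ^ k) else 0) +
         (if Cnd j.1 j.2.1.card j.2.2.card then Real.exp (-β * j.1) *
          (Real.exp (2 * θ * k) * (2 : ℝ) ^ (2 * (K + 1))) else 0) *
          Real.exp (-t * (1 - Real.cos (Real.pi / (j.2.1.card + C)) * Real.cos (Real.pi / (j.2.2.card + C))))) ≤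
      Real.exp (28 * p + 9 - 10 * β * p) +
        Real.exp (28 * p + (11 + c₁ / 80) + (c₁ / 2) * β * p - s * β * p) := by
  have hterm : ∀ j ∈ range (K + 1) ×ˢ (PK K ×ˢ PK K),
        ((if Cnd j.1 j.2.1.card j.2.2.card then Real.exp (-β * j.1) * (4 ^ j.1 * (3 / 4) ^ k) else 0) +
         (if Cnd j.1 j.2.1.card j.2.2.card then Real.exp (-β * j.1) *
          (Real.exp (2 * θ * k) * (2 : ℝ) ^ (2 * (K + 1))) else 0) *
          Real.exp (-t * (1 - Real.cos (Real.pi / (j.2.1.card + C)) * Real.cos (Real.pi / (j.2.2.card + C))))) ≤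
        Real.exp (8 * p + 2 - 10 * β * p) +
          Real.exp ((c₁ / 2) * β * p + c₁ / 80 + (8 * p + 4) - β * p * s) := by
    rintro ⟨b, P, Q⟩ hj
    rw [mem_product, mem_range] at hj
    by_cases hc : Cnd b P.card Q.card
    · simp only [if_pos hc]
      apply add_le_add
      · have h1 : Real.exp (-β * b) ≤ 1 := by
          rw [Real.exp_le_one_iff]
          have : (0 : ℝ) ≤ b := Nat.cast_nonneg b
          nlinarith
        have h2 : (4 : ℝ) ^ b ≤ Real.exp (8 * p + 2) := by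
          refine (four_pow_le b).trans (Real.exp_le_exp.mpr ?_)
          have : (b : ℝ) ≤ K := by exact_mod_cast Nat.lt_succ_iff.mp hj.1
          linarith
        have h3 : (3 / 4 : ℝ) ^ k ≤ Real.exp (-(10 * β * p)) := by
          refine (tq_pow_le k).trans (Real.exp_le_exp.mpr ?_)
          linarith
        calc Real.exp (-β * b) * (4 ^ b * (3 / 4) ^ k) ≤ 1 * (Real.exp (8 * p + 2) * Real.exp (-(10 * β * p))) := by
              gcongr
          _ = _ := by rw [one_mul, ← Real.exp_add]; congr 1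
      · have h1 : (2 : ℝ) ^ (2 * (K + 1)) ≤ Real.exp (8 * p + 4) := by
          refine (two_pow_le _).trans (Real.exp_le_exp.mpr ?_)
          push_cast
          linarith
        have h2 : Real.exp (2 * θ * k) ≤ Real.exp ((c₁ / 2) * β * p + c₁ / 80) := by
          apply Real.exp_le_exp.mpr
          rw [hθ]
          nlinarith
        have h3 := hexpo P.card Q.card b hc
        have h4 : Real.exp (-β * b) * Real.exp (-t * (1 - Real.cos (Real.pi / (P.card + C)) *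
            Real.cos (Real.pi / (Q.card + C)))) ≤ Real.exp (-(β * p * s)) := by
          rw [← Real.exp_add]
          apply Real.exp_le_exp.mpr
          linarith
        calc _ = (Real.exp (-β * b) * Real.exp (-t * (1 - Real.cos (Real.pi / (P.card + C)) *
            Real.cos (Real.pi / (Q.card + C))))) * (Real.exp (2 * θ * k) * (2 : ℝ) ^ (2 * (K + 1))) := by ring
          _ ≤ Real.exp (-(β * p * s)) * (Real.exp ((c₁ / 2) * β * p + c₁ / 80) *
            Real.exp (8 * p + 4)) := by gcongr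
          _ = _ := by
            rw [← Real.exp_add, ← Real.exp_add]; congr 1; ring
    · simp only [if_neg hc]
      rw [zero_mul, add_zero]
      positivity
  refine (sum_le_card_nsmul _ _ _ hterm).trans ?_
  rw [nsmul_eq_mul]
  have hcard : ((range (K + 1) ×ˢ (PK K ×ˢ PK K)).card : ℝ) ≤ Real.exp (20 * p + 7) :=
    (card_le' K).trans (Real.exp_le_exp.mpr (by linarith))
  calc _ ≤ Real.exp (20 * p + 7) * (Real.exp (8 * p + 2 - 10 * β * p) +
          Real.exp ((c₁ / 2) * β * p + c₁ / 80 + (8 * p + 4) - β * p * s)) := by gcongr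
    _ = _ := by
      rw [mul_add, ← Real.exp_add, ← Real.exp_add]
      congr 2 <;> ring


theorem ps_tendsto' {β : ℝ} (hβ : 0 < β) : Tendsto (fun t => ps β t) atTop atTop := by
  unfold ps
  apply (tendsto_rpow_atTop (by norm_num : (0 : ℝ) < 1 / 3)).comp
  have : (fun t : ℝ => Real.pi ^ 2 * t / β) = fun t => (Real.pi ^ 2 / β) * t := by funext t; ring
  rw [this]
  exact tendsto_id.const_mul_atTop (by positivity)

theorem ps_cube' {β t : ℝ} (hβ : 0 < β) (ht : 0 ≤ t) : β * ps β t ^ 3 / Real.pi ^ 2 = t := by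
  have : ps β t ^ 3 = Real.pi ^ 2 * t / β := by
    unfold ps
    rw [← Real.rpow_natCast, ← Real.rpow_mul (by positivity)]
    norm_num
  rw [this]
  field_simp

/-- general form of the estimate -/
theorem bad_gen (hUB : UBX) (hI : TaskIso) (hT : TaskInt) {β C' c₁ : ℝ} (hβ0 : 0 < β)
    (hZ' : ∀ᶠ t in atTop, Real.exp (-(3 * β + C') * ps β t) ≤ Es t (wt β)) (hC' : 0 < C')
    (hβ3 : 29 + C' ≤ β) (hc₁ : 0 < c₁) (hβ4 : 29 + C' ≤ c₁ / 2 * β)
    (𝓐 : ℝ → Set (Finset Pt)) (Cnd : ℝ → ℕ → ℕ → ℕ → Prop)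
    (hA : ∀ t, ∀ G ∈ 𝓐 t, Cnd (ps β t) (bd G).card (pU (inn G)).card (pV (inn G)).card)
    (hexpo : ∀ C : ℝ, 3 ≤ C → ∃ p₀ : ℝ, 1 ≤ p₀ ∧ ∀ p : ℝ, p₀ ≤ p → ∀ P Q b : ℕ, Cnd p b P Q →
      β * p * (3 + c₁) ≤ β * b + β * p ^ 3 / Real.pi ^ 2 *
        (1 - Real.cos (Real.pi / (P + C)) * Real.cos (Real.pi / (Q + C)))) :
    Tendsto (fun t => mu β t (𝓐 t)) atTop (𝓝 0) := by
  classical
  obtain ⟨C, hC, hUB'⟩ := hUB (c₁ / 160) (by positivity)
  obtain ⟨p₀, hp₀, hexpo'⟩ := hexpo C hC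
  have hps := ps_tendsto' hβ0
  have hup : Tendsto (fun t => Real.exp (0 - ps β t) + Real.exp (9 - ps β t) +
      Real.exp ((11 + c₁ / 80) - ps β t)) atTop (𝓝 0) := by
    have h1 : ∀ c : ℝ, Tendsto (fun t => Real.exp (c - ps β t)) atTop (𝓝 0) := by
      intro c
      apply Real.tendsto_exp_atBot.comp
      have := tendsto_atBot_add_const_left atTop c (tendsto_neg_atTop_atBot.comp hps)
      refine this.congr fun t => ?_
      simp [sub_eq_add_neg]
    have h := ((h1 0).add (h1 9)).add (h1 (11 + c₁ / 80))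
    rw [add_zero, add_zero] at h
    exact h
  refine squeeze_zero' ?_ ?_ hup
  · filter_upwards [eventually_ge_atTop 0] with t ht
    unfold mu
    apply div_nonneg
    · apply Pool.Agent.H811R3.DM.Es_nonneg t ht
      intro G
      split_ifs
      · exact wt_nonneg _ _
      · exact le_rfl
    · exact Pool.Agent.H811R3.DM.Es_nonneg t ht _ (wt_nonneg β)
  · filter_upwards [hZ', eventually_ge_atTop 0, hps.eventually_ge_atTop p₀] with t hZt ht hpt
    have hp3 := ps_cube' hβ0 ht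
    have hp1 : 1 ≤ ps β t := hp₀.trans hpt
    have hp0 : 0 < ps β t := by linarith
    have hnum := num_leX hI hT hUB' (𝓐 t) (Cnd (ps β t)) (hA t) β t hβ0 ht
      ⌈40 * β * ps β t⌉₊ ⌈4 * ps β t⌉₊ (Nat.le_ceil _)
    have htot := tot_leX (c₁ := c₁) (s := 3 + c₁) (θ := c₁ / 160) (C := C) (β := β) (p := ps β t) (t := t)
      ⌈40 * β * ps β t⌉₊ ⌈4 * ps β t⌉₊ hc₁ rfl hC hβ0 (Nat.ceil_lt_add_one (by positivity)).le
      (Nat.le_ceil _) (Nat.ceil_lt_add_one (by positivity)).le (Cnd (ps β t)) (by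
        intro P Q b hc
        have := hexpo' (ps β t) hpt P Q b hc
        rw [hp3] at this
        exact this)
    have hD : 0 < Es t (wt β) := (Real.exp_pos _).trans_le hZt
    unfold mu
    rw [div_le_iff₀ hD]
    refine hnum.trans ?_
    refine (add_le_add le_rfl htot).trans ?_
    refine le_trans ?_ (mul_le_mul_of_nonneg_left hZt (by positivity))
    have hββ : 0 ≤ (β - C' - 1) * ps β t := mul_nonneg (by linarith) hp0.le
    have hββ2 : 0 ≤ (7 * β - 29 - C') * ps β t := mul_nonneg (by linarith) hp0.le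
    have hββ3 : 0 ≤ (c₁ / 2 * β - (29 + C')) * ps β t := mul_nonneg (by linarith) hp0.le
    have e1 : Real.exp (-β * (4 * ps β t)) ≤
        Real.exp (0 - ps β t) * Real.exp (-(3 * β + C') * ps β t) := by
      rw [← Real.exp_add]
      apply Real.exp_le_exp.mpr
      nlinarith
    have e2 : Real.exp (28 * ps β t + 9 - 10 * β * ps β t) ≤
        Real.exp (9 - ps β t) * Real.exp (-(3 * β + C') * ps β t) := by
      rw [← Real.exp_add]
      apply Real.exp_le_exp.mpr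
      nlinarith
    have e3 : Real.exp (28 * ps β t + (11 + c₁ / 80) + (c₁ / 2) * β * ps β t - (3 + c₁) * β * ps β t) ≤
        Real.exp ((11 + c₁ / 80) - ps β t) * Real.exp (-(3 * β + C') * ps β t) := by
      rw [← Real.exp_add]
      apply Real.exp_le_exp.mpr
      nlinarith
    calc _ ≤ _ := add_le_add e1 (add_le_add e2 e3)
      _ = _ := by ring

/-- sizes: the relative error may be any `η ≤ 1` with `η² β ≥ 48 (29 + C')` -/
theorem bad1X (hUB : UBX) (hI : TaskIso) (hT : TaskInt) {β C' : ℝ} (hβ0 : 0 < β)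
    (hZ' : ∀ᶠ t in atTop, Real.exp (-(3 * β + C') * ps β t) ≤ Es t (wt β)) (hC' : 0 < C')
    (hβ3 : 29 + C' ≤ β) {η : ℝ} (hη : 0 < η) (hη1 : η ≤ 1) (hηβ : 48 * (29 + C') ≤ η ^ 2 * β) :
    Tendsto (fun t => mu β t {G | G ∉ good1 η β t}) atTop (𝓝 0) := by
  refine bad_gen hUB hI hT (c₁ := η ^ 2 / 24) hβ0 hZ' hC' hβ3 (by positivity) (by linarith) _
    (fun p => Cond η p) ?_ ?_
  · intro t G hG
    refine ⟨PQ_le hI _, ?_⟩
    by_contra hcon
    push Not at hcon
    exact hG ⟨hcon.1, hcon.2.1, by linarith [hcon.2.2]⟩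
  · intro C hC
    obtain ⟨p₀, hp₀, h⟩ := expoX η hη hη1 C hC
    exact ⟨p₀, hp₀, fun p hp P Q b hc => h β p hβ0 hp P Q b hc.1 hc.2⟩

/-- the excess of the boundary: any `e ≤ 1` with `e β ≥ 4 (29 + C')` -/
theorem excess (hUB : UBX) (hI : TaskIso) (hT : TaskInt) {β C' : ℝ} (hβ0 : 0 < β)
    (hZ' : ∀ᶠ t in atTop, Real.exp (-(3 * β + C') * ps β t) ≤ Es t (wt β)) (hC' : 0 < C')
    (hβ3 : 29 + C' ≤ β) {e : ℝ} (he : 0 < e) (he1 : e ≤ 1) (heβ : 4 * (29 + C') ≤ e * β) :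
    Tendsto (fun t => mu β t {G | ((pU (inn G)).card : ℝ) + (pV (inn G)).card + e * ps β t
      < (bd G).card}) atTop (𝓝 0) := by
  refine bad_gen hUB hI hT (c₁ := e / 2) hβ0 hZ' hC' hβ3 (by positivity) (by linarith) _
    (fun p b P Q => (P : ℝ) + Q + e * p < b) ?_ ?_
  · intro t G hG
    exact hG
  · intro C hC
    obtain ⟨p₀, hp₀, h⟩ := expo0 (e / 2) (by positivity) (by linarith) C hC
    refine ⟨p₀, hp₀, fun p hp P Q b hc => ?_⟩
    have h1 := h β p hβ0 hp P Q (P + Q) le_rfl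
    push_cast at h1
    have h2 : β * ((P : ℝ) + Q + e * p) ≤ β * b := mul_le_mul_of_nonneg_left hc.le hβ0.le
    nlinarith

/-- upper bound for the partition function -/
theorem zUpper (hUB : UBX) (hI : TaskIso) (hT : TaskInt) :
    ∀ β : ℝ, 28 ≤ β → ∀ᶠ t in atTop, Es t (wt β) ≤ Real.exp (-(3 * β - 31) * ps β t) := by
  classical
  intro β hβ
  have hβ0 : 0 < β := by linarith
  obtain ⟨c₁, hc₁d⟩ : ∃ c₁ : ℝ, c₁ = 1 / β := ⟨_, rfl⟩
  have hc₁ : 0 < c₁ := by rw [hc₁d]; positivity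
  have hc₁1 : c₁ ≤ 1 := by rw [hc₁d, div_le_one hβ0]; linarith
  have hcβ : c₁ * β = 1 := by rw [hc₁d]; field_simp
  obtain ⟨C, hC, hUB'⟩ := hUB (c₁ / 160) (by positivity)
  obtain ⟨p₀, hp₀, hexpo'⟩ := expo0 c₁ hc₁ hc₁1 C hC
  have hps := ps_tendsto' hβ0
  filter_upwards [eventually_ge_atTop 0, hps.eventually_ge_atTop p₀, hps.eventually_ge_atTop 40] with t ht hpt hp20
  have hp3 := ps_cube' hβ0 ht
  have hp1 : 1 ≤ ps β t := hp₀.trans hpt
  have hp0 : 0 < ps β t := by linarith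
  have hnum := num_leX hI hT hUB' Set.univ (fun b P Q => P + Q ≤ b) (fun G _ => PQ_le hI G) β t hβ0 ht
    ⌈40 * β * ps β t⌉₊ ⌈4 * ps β t⌉₊ (Nat.le_ceil _)
  have hE : Es t (wt β) = Es t (fun G => @ite ℝ (G ∈ (Set.univ : Set (Finset Pt)))
      (Classical.propDecidable _) (wt β G) 0) := by
    congr 1
    funext G
    rw [if_pos (Set.mem_univ G)]
  have htot := tot_leX (c₁ := c₁) (s := 3 - c₁) (θ := c₁ / 160) (C := C) (β := β) (p := ps β t) (t := t)
      ⌈40 * β * ps β t⌉₊ ⌈4 * ps β t⌉₊ hc₁ rfl hC hβ0 (Nat.ceil_lt_add_one (by positivity)).le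
      (Nat.le_ceil _) (Nat.ceil_lt_add_one (by positivity)).le (fun b P Q => P + Q ≤ b) (by
        intro P Q b hc
        have := hexpo' β (ps β t) hβ0 hpt P Q b hc
        rw [hp3] at this
        exact this)
  rw [hE]
  refine hnum.trans ((add_le_add le_rfl htot).trans ?_)
  have hcp : c₁ * β * ps β t = ps β t := by rw [hcβ, one_mul]
  have hβp : 28 * ps β t ≤ β * ps β t := mul_le_mul_of_nonneg_right hβ hp0.le
  have e1 : Real.exp (-β * (4 * ps β t)) ≤
      Real.exp (-2) * Real.exp (-(3 * β - 31) * ps β t) := by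
    rw [← Real.exp_add]
    apply Real.exp_le_exp.mpr
    nlinarith
  have e2 : Real.exp (28 * ps β t + 9 - 10 * β * ps β t) ≤
      Real.exp (-2) * Real.exp (-(3 * β - 31) * ps β t) := by
    rw [← Real.exp_add]
    apply Real.exp_le_exp.mpr
    nlinarith
  have e3 : Real.exp (28 * ps β t + (11 + c₁ / 80) + (c₁ / 2) * β * ps β t - (3 - c₁) * β * ps β t) ≤
      Real.exp (-2) * Real.exp (-(3 * β - 31) * ps β t) := by
    rw [← Real.exp_add]
    apply Real.exp_le_exp.mpr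
    nlinarith
  have h3 : Real.exp (-2) ≤ 1 / 3 := by
    have h4 : (3 : ℝ) ≤ Real.exp 2 := by
      have := Real.add_one_le_exp (2 : ℝ)
      linarith
    rw [Real.exp_neg, inv_eq_one_div]
    exact one_div_le_one_div_of_le (by norm_num) h4
  have h5 : 0 < Real.exp (-(3 * β - 31) * ps β t) := Real.exp_pos _
  calc _ ≤ Real.exp (-2) * Real.exp (-(3 * β - 31) * ps β t) + (Real.exp (-2) * Real.exp (-(3 * β - 31) * ps β t) +
        Real.exp (-2) * Real.exp (-(3 * β - 31) * ps β t)) := add_le_add e1 (add_le_add e2 e3)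
    _ = 3 * Real.exp (-2) * Real.exp (-(3 * β - 31) * ps β t) := by ring
    _ ≤ 1 * Real.exp (-(3 * β - 31) * ps β t) := by
        apply mul_le_mul_of_nonneg_right _ h5.le
        linarith
    _ = _ := one_mul _

end Pool.Agent.H51.DQ
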