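import Pool.Graph.R_seed8.H308R3.DM.Bad2_helper83
import Pool.Agent.H51.DQ.Bad1

set_option autoImplicit false

/-! # Holes, with explicit constants (after `Pool.Graph.R_seed8.H308R3.DM.Bad2_helper83`) -/

namespace Pool.Agent.H51.DQ

open Finset Filter Topology
open Pool.Agent.H308R3.DM Pool.Agent.H308R3.DM.B2
open scoped Classical BigOperators ENNReal

noncomputable section

/-- the form bound with explicit constants -/
def FormC (κ c : ℝ) (M0 : ℕ) : Prop :=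
  ∀ (M a b w : ℕ) (u1 v1 α γ : ℤ), M0 ≤ M → M ≤ a → a ≤ 2 * M → M ≤ b → b ≤ 2 * M →
  κ * M ≤ w → u1 < α → α + w < u1 + a → v1 < γ → γ + w < v1 + b →
  0 ≤ (Real.cos (Real.pi / (a + 2)) ^ 2 + Real.cos (Real.pi / (b + 2)) ^ 2) / 2 - c / (M : ℝ) ^ 2 ∧
  ∀ (H : Finset Pt), (∀ x ∈ H, x ∈ boxo u1 v1 a b ∧ x ∉ boxc α γ w) →
  ∀ f : Pt → ℝ, (∀ x, x ∉ H → f x = 0) →
    ∑ x ∈ H, ∑ s : Stp, f x * f (x + dv s) ≤
      4 * ((Real.cos (Real.pi / (a + 2)) ^ 2 + Real.cos (Real.pi / (b + 2)) ^ 2) / 2 - c / (M : ℝ) ^ 2)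
        * ∑ x ∈ H, (f x) ^ 2

/-- the tuples `(a, b, c, d, α, γ)` -/
def VV (M w0 : ℕ) : Finset (ℤ × ℤ × ℤ × ℤ × ℤ × ℤ) :=
  (Icc (-(2 * (M : ℤ))) (2 * M) ×ˢ Icc (-(2 * (M : ℤ))) (2 * M) ×ˢ Icc (-(2 * (M : ℤ))) (2 * M) ×ˢ
    Icc (-(2 * (M : ℤ))) (2 * M) ×ˢ Icc (-(2 * (M : ℤ))) (2 * M) ×ˢ
    Icc (-(2 * (M : ℤ))) (2 * M)).filter fun p =>
    (M : ℤ) ≤ p.2.1 - p.1 + 2 ∧ p.2.1 - p.1 + 2 ≤ 2 * M ∧
    (M : ℤ) ≤ p.2.2.2.1 - p.2.2.1 + 2 ∧ p.2.2.2.1 - p.2.2.1 + 2 ≤ 2 * M ∧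
    p.1 ≤ p.2.2.2.2.1 ∧ p.2.2.2.2.1 + w0 ≤ p.2.1 ∧
    p.2.2.1 ≤ p.2.2.2.2.2 ∧ p.2.2.2.2.2 + w0 ≤ p.2.2.2.1

/-- the set of sites of a tuple -/
def HV (w0 : ℕ) (p : ℤ × ℤ × ℤ × ℤ × ℤ × ℤ) : Finset Pt :=
  HH w0 p.1 p.2.1 p.2.2.1 p.2.2.2.1 p.2.2.2.2.1 p.2.2.2.2.2

/-- the rate of a tuple -/
def rV (c' : ℝ) (M : ℕ) (p : ℤ × ℤ × ℤ × ℤ × ℤ × ℤ) : ℝ :=
  (Real.cos (Real.pi / (((p.2.1 - p.1 + 2 : ℤ) : ℝ) + 2)) ^ 2 +
    Real.cos (Real.pi / (((p.2.2.2.1 - p.2.2.1 + 2 : ℤ) : ℝ) + 2)) ^ 2) / 2 - c' / (M : ℝ) ^ 2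

theorem VV_card (M w0 : ℕ) : ((VV M w0).card : ℝ) ≤ (4 * M + 1) ^ 6 := by
  have hScard : ((Icc (-(2 * (M : ℤ))) (2 * M)).card : ℝ) = 4 * M + 1 := by
    rw [Int.card_Icc]
    have : (2 * (M : ℤ) + 1 - -(2 * (M : ℤ))) = ((4 * M + 1 : ℕ) : ℤ) := by push_cast; ring
    rw [this, Int.toNat_natCast]
    push_cast; ring
  have h1 : (VV M w0).card ≤ _ := card_filter_le _ _
  have h2 := h1
  simp only [card_product] at h2
  have h3 := (Nat.cast_le (α := ℝ)).mpr h2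
  refine h3.trans (le_of_eq ?_)
  push_cast
  rw [hScard]
  ring

theorem each_le (hP : TaskPow) {κ c' : ℝ} {M0 : ℕ} (hform : FormC κ c' M0)
    (M w0 : ℕ) (hM : M0 ≤ M) (hw : κ * M ≤ w0) (n : ℕ) :
    ∀ p ∈ VV M w0, (((univ : Finset (Fin n → Stp)).filter
        (fun ω => rng 0 ω ⊆ HV w0 p)).card : ℝ) ≤ 4 ^ n * (4 * M + 1) * rV c' M p ^ n := by
  rintro ⟨a, b, c, d, α, γ⟩ hp
  simp only [VV, mem_filter, mem_product, mem_Icc] at hp
  obtain ⟨_, h1, h2, h3, h4, h7, h8, h9, h10⟩ := hp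
  have hw0 : (0 : ℤ) ≤ w0 := Int.natCast_nonneg _
  obtain ⟨A, hA⟩ : ∃ A : ℕ, (A : ℤ) = b - a + 2 := ⟨(b - a + 2).toNat, Int.toNat_of_nonneg (by omega)⟩
  obtain ⟨B, hB⟩ : ∃ B : ℕ, (B : ℤ) = d - c + 2 := ⟨(d - c + 2).toNat, Int.toNat_of_nonneg (by omega)⟩
  have hf := hform M A B w0 (a - 1) (c - 1) α γ hM (by omega) (by omega) (by omega) (by omega) hw
    (by omega) (by omega) (by omega) (by omega)
  have hHH : ∀ x ∈ HH w0 a b c d α γ, x ∈ boxo (a - 1) (c - 1) A B ∧ x ∉ boxc α γ w0 := by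
    intro x hx
    unfold HH at hx
    rw [mem_filter, mem_product, mem_Icc, mem_Icc] at hx
    obtain ⟨⟨hx1, hx2⟩, hx3, hx4⟩ := hx
    refine ⟨?_, hx4⟩
    unfold boxo
    refine ⟨?_, ?_, ?_, ?_, hx3⟩ <;> omega
  have hpow := hP (HH w0 a b c d α γ) _ hf.1 (hf.2 _ hHH) n 0
  refine hpow.trans ?_
  have hcard : Real.sqrt (HH w0 a b c d α γ).card ≤ 4 * M + 1 := by
    rw [Real.sqrt_le_left (by positivity)]
    have h11 : (HH w0 a b c d α γ).card ≤ (b + 1 - a).toNat * (d + 1 - c).toNat := by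
      unfold HH
      refine (card_filter_le _ _).trans ?_
      rw [card_product, Int.card_Icc, Int.card_Icc]
    have h12 : (b + 1 - a).toNat ≤ 2 * M := by omega
    have h13 : (d + 1 - c).toNat ≤ 2 * M := by omega
    have h14 : (HH w0 a b c d α γ).card ≤ (2 * M) * (2 * M) := h11.trans (Nat.mul_le_mul h12 h13)
    have h15 : ((HH w0 a b c d α γ).card : ℝ) ≤ (2 * M) * (2 * M) := by exact_mod_cast h14
    have hM' : (0 : ℝ) ≤ M := Nat.cast_nonneg M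
    nlinarith
  have hrr : rV c' M (a, b, c, d, α, γ) =
      (Real.cos (Real.pi / (A + 2)) ^ 2 + Real.cos (Real.pi / (B + 2)) ^ 2) / 2
      - c' / (M : ℝ) ^ 2 := by
    have e1 : ((b - a + 2 : ℤ) : ℝ) = A := by rw [← hA]; push_cast; rfl
    have e2 : ((d - c + 2 : ℤ) : ℝ) = B := by rw [← hB]; push_cast; rfl
    simp only [rV]
    rw [e1, e2]
  rw [hrr]
  have := hf.1
  gcongr

/-- covering of the event by tuples -/
theorem cover_tuple (hInt : TaskInt) (hIso : TaskIso) {P η κ e : ℝ} (hη : 0 < η) (hη8 : η ≤ 1 / 8)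
    (hP6 : 6 ≤ P) (hηP : 3 ≤ η * P) {n : ℕ} (ω : Fin n → Stp)
    (g1 : |((pU (inn (rng 0 ω))).card : ℝ) - P| ≤ η * P)
    (g2 : |((pV (inn (rng 0 ω))).card : ℝ) - P| ≤ η * P)
    (g3 : ((bd (rng 0 ω)).card : ℝ) ≤ (pU (inn (rng 0 ω))).card + (pV (inn (rng 0 ω))).card + η * P)
    (g4 : ((bd (rng 0 ω)).card : ℝ) ≤ (pU (inn (rng 0 ω))).card + (pV (inn (rng 0 ω))).card + e * P)
    {w : ℕ} (hw : κ * P ≤ w) (hG : rng 0 ω ∈ missing w) :
    ∃ q ∈ VV ⌊(1 - η) * P⌋₊ ⌈κ * P⌉₊, rng 0 ω ⊆ HV ⌈κ * P⌉₊ q ∧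
      ((q.2.1 - q.1 : ℤ) : ℝ) + 1 + (((q.2.2.2.1 - q.2.2.1 : ℤ) : ℝ) + 1) - e * P
        ≤ (bd (rng 0 ω)).card := by
  set G := rng 0 ω with hGdef
  obtain ⟨a, b, c, d, α, γ, hU, hV, h1, h2, h3, h4, h5⟩ := hG
  have hw0 : (0 : ℤ) ≤ w := Int.natCast_nonneg _
  have i1 : ((pU G).card : ℝ) + (pV (inn G)).card ≤ (bd G).card := by exact_mod_cast hIso G
  have i2 : ((pV G).card : ℝ) + (pU (inn G)).card ≤ (bd G).card := by
    exact_mod_cast iso_swap hIso G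
  have i3 : ((pU (inn G)).card : ℝ) ≤ (pU G).card := by exact_mod_cast pU_inn_le G
  have i4 : ((pV (inn G)).card : ℝ) ≤ (pV G).card := by exact_mod_cast pV_inn_le G
  rw [abs_le] at g1 g2
  have cU : ((pU G).card : ℝ) = ((b - a : ℤ) : ℝ) + 1 := by rw [hU]; exact toNat_card (by omega)
  have cV : ((pV G).card : ℝ) = ((d - c : ℤ) : ℝ) + 1 := by rw [hV]; exact toNat_card (by omega)
  obtain ⟨u1, u2, _⟩ := side hη hη8 hP6 hηP cU (by linarith [g1.1]) (by linarith [g1.2])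
  obtain ⟨v1, v2, _⟩ := side hη hη8 hP6 hηP cV (by linarith [g2.1]) (by linarith [g2.2])
  have hww : ⌈κ * P⌉₊ ≤ w := Nat.ceil_le.2 hw
  have hww' : ((⌈κ * P⌉₊ : ℕ) : ℤ) ≤ w := by exact_mod_cast hww
  obtain ⟨⟨a', b', ha', hb', hU'⟩, ⟨c₁, d₁, hc₁, hd₁, hV'⟩, hpar⟩ := hInt n ω
  have h0U : (0 : ℤ) ∈ Icc a b := by
    rw [← hU, hU', mem_Icc]; exact ⟨ha', hb'⟩
  have h0V : (0 : ℤ) ∈ Icc c d := by
    rw [← hV, hV', mem_Icc]; exact ⟨hc₁, hd₁⟩
  rw [mem_Icc] at h0U h0V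
  have hww0 : (0 : ℤ) ≤ ((⌈κ * P⌉₊ : ℕ) : ℤ) := Int.natCast_nonneg _
  refine ⟨(a, b, c, d, α, γ), ?_, ?_, ?_⟩
  · simp only [VV, mem_filter, mem_product, mem_Icc]
    refine ⟨⟨⟨?_, ?_⟩, ⟨?_, ?_⟩, ⟨?_, ?_⟩, ⟨?_, ?_⟩, ⟨?_, ?_⟩, ⟨?_, ?_⟩⟩,
      u1, u2, v1, v2, h1, ?_, h3, ?_⟩ <;> omega
  · intro x hx
    simp only [HV]
    unfold HH
    rw [mem_filter, mem_product]
    refine ⟨⟨?_, ?_⟩, hpar x hx, ?_⟩
    · rw [← hU]; exact mem_image_of_mem _ hx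
    · rw [← hV]; exact mem_image_of_mem _ hx
    · intro hxb
      refine h5 x hx ?_
      unfold boxc at hxb ⊢
      obtain ⟨e1, e2, e3, e4⟩ := hxb
      exact ⟨e1, by omega, e3, by omega⟩
  · simp only
    rw [← cU, ← cV]
    linarith

/-- one side: energy at least `3/2` -/
theorem side_energy {β p t x : ℝ} (hβ : 0 < β) (hp : 27 ≤ p) (hx : p / 2 ≤ x)
    (ht : β * p ^ 3 / Real.pi ^ 2 = t) :
    3 / 2 * β * p - 4 * β ≤ β * (x - 3) + t * (Real.sin (Real.pi / x) ^ 2 / 2) := by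
  have hpi := Real.pi_pos
  have hpi3 : Real.pi < 3.15 := Real.pi_lt_d2
  have hp0 : 0 < p := by linarith
  have hx0 : 0 < x := by linarith
  obtain ⟨y, hy⟩ : ∃ y : ℝ, y = Real.pi / x := ⟨_, rfl⟩
  have hy0 : 0 < y := by rw [hy]; positivity
  have hyx : y * x = Real.pi := by rw [hy]; field_simp
  have hyp : y * p ≤ 2 * Real.pi := by nlinarith
  have hy1 : y ≤ 1 := by
    by_contra h
    push Not at h
    nlinarith
  have hs := Real.sin_gt_sub_cube hy0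
  have hs1 : y * (1 - y ^ 2 / 6) ≤ Real.sin y := by nlinarith
  have hs0 : 0 ≤ y * (1 - y ^ 2 / 6) := mul_nonneg hy0.le (by nlinarith)
  have hs2 : y ^ 2 - y ^ 4 / 3 ≤ Real.sin y ^ 2 := by
    have h7 : (y * (1 - y ^ 2 / 6)) ^ 2 ≤ Real.sin y ^ 2 := pow_le_pow_left₀ hs0 hs1 2
    nlinarith [sq_nonneg (y ^ 3)]
  have ht0 : 0 < t := by rw [← ht]; positivity
  obtain ⟨X, hX⟩ : ∃ X : ℝ, X = x / p := ⟨_, rfl⟩
  have hX0 : 0 < X := by rw [hX]; positivity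
  have hXp : X * p = x := by rw [hX]; field_simp
  have h1 : t * y ^ 2 = β * p * (1 / X ^ 2) := by
    rw [← ht, hy, hX]; field_simp
  have h2 : t * y ^ 4 ≤ 6 * β := by
    have h3 : t * y ^ 4 = β * p * (y * p) ^ 2 * y ^ 2 / Real.pi ^ 2 := by
      rw [← ht]; ring
    rw [h3, div_le_iff₀ (by positivity)]
    have h4 : (y * p) ^ 2 ≤ (2 * Real.pi) ^ 2 := pow_le_pow_left₀ (by positivity) hyp 2
    have h5 : p * (y * p) ^ 2 * y ^ 2 ≤ 6 * Real.pi ^ 2 := by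
      have h6 : p * (y * p) ^ 2 * y ^ 2 * p = (y * p) ^ 2 * (y * p) ^ 2 := by ring
      have h7 : (y * p) ^ 2 * (y * p) ^ 2 ≤ (2 * Real.pi) ^ 2 * (2 * Real.pi) ^ 2 :=
        mul_le_mul h4 h4 (by positivity) (by positivity)
      have h8 : (2 * Real.pi) ^ 2 * (2 * Real.pi) ^ 2 ≤ 6 * Real.pi ^ 2 * 27 := by
        have h9 : Real.pi ^ 2 ≤ 10 := by nlinarith
        have h10 : 0 ≤ Real.pi ^ 2 := by positivity
        nlinarith
      have h11 : 6 * Real.pi ^ 2 * 27 ≤ 6 * Real.pi ^ 2 * p :=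
        mul_le_mul_of_nonneg_left hp (by positivity)
      exact le_of_mul_le_mul_right (by linarith) hp0
    calc β * p * (y * p) ^ 2 * y ^ 2 = β * (p * (y * p) ^ 2 * y ^ 2) := by ring
      _ ≤ β * (6 * Real.pi ^ 2) := mul_le_mul_of_nonneg_left h5 hβ.le
      _ = _ := by ring
  have h12 : t * (y ^ 2 - y ^ 4 / 3) ≤ t * Real.sin y ^ 2 := mul_le_mul_of_nonneg_left hs2 ht0.le
  have h13 := Pool.Agent.H811R3.DM.f_min hX0
  have h14 : β * p * (3 / 2) ≤ β * p * (X + 1 / (2 * X ^ 2)) :=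
    mul_le_mul_of_nonneg_left h13 (by positivity)
  have h15 : β * p * (X + 1 / (2 * X ^ 2)) = β * x + t * y ^ 2 / 2 := by
    rw [h1, ← hXp]; field_simp
  rw [← hy]
  nlinarith

/-- every tuple costs at least the optimum plus the cost of the hole -/
theorem tuple_energy {κ c' β p t e : ℝ} (hβ : 0 < β) (hp : 27 ≤ p) (hc : 0 < c')
    (ht : β * p ^ 3 / Real.pi ^ 2 = t) {M w0 : ℕ} (hM1 : p / 2 ≤ M) (hM2 : (M : ℝ) ≤ p)
    {q : ℤ × ℤ × ℤ × ℤ × ℤ × ℤ} (hq : q ∈ VV M w0) (hκ : 0 ≤ κ) :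
    (3 - e) * β * p + c' * β * p / 10 - 8 * β ≤
      β * (((q.2.1 - q.1 : ℤ) : ℝ) + 1 + (((q.2.2.2.1 - q.2.2.1 : ℤ) : ℝ) + 1) - e * p)
        + t * (1 - rV c' M q) := by
  obtain ⟨a, b, c, d, α, γ⟩ := q
  simp only [VV, mem_filter, mem_product, mem_Icc] at hq
  obtain ⟨_, h1, h2, h3, h4, h7, h8, h9, h10⟩ := hq
  have hp0 : 0 < p := by linarith
  have hM0 : (0 : ℝ) < M := by linarith
  have ht0 : 0 < t := by
    rw [← ht]
    have := Real.pi_pos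
    positivity
  have hx1 : (M : ℝ) ≤ ((b - a + 2 : ℤ) : ℝ) := by exact_mod_cast h1
  have hx2 : (M : ℝ) ≤ ((d - c + 2 : ℤ) : ℝ) := by exact_mod_cast h3
  have e1 := side_energy (x := ((b - a + 2 : ℤ) : ℝ) + 2) hβ hp (by linarith) ht
  have e2 := side_energy (x := ((d - c + 2 : ℤ) : ℝ) + 2) hβ hp (by linarith) ht
  have s1 := Real.sin_sq_add_cos_sq (Real.pi / (((b - a + 2 : ℤ) : ℝ) + 2))
  have s2 := Real.sin_sq_add_cos_sq (Real.pi / (((d - c + 2 : ℤ) : ℝ) + 2))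
  have hc10 : c' * β * p / 10 ≤ t * (c' / (M : ℝ) ^ 2) := by
    have hpi3 : Real.pi < 3.15 := Real.pi_lt_d2
    have hpi := Real.pi_pos
    have hpi2 : Real.pi ^ 2 ≤ 10 := by nlinarith
    have g1 : c' / p ^ 2 ≤ c' / (M : ℝ) ^ 2 :=
      div_le_div_of_nonneg_left hc.le (by positivity) (pow_le_pow_left₀ hM0.le hM2 2)
    have g2 : t * (c' / p ^ 2) = c' * β * p / Real.pi ^ 2 := by
      rw [← ht]; field_simp
    have g3 : c' * β * p / 10 ≤ c' * β * p / Real.pi ^ 2 :=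
      div_le_div_of_nonneg_left (by positivity) (by positivity) hpi2
    refine g3.trans ?_
    rw [← g2]
    exact mul_le_mul_of_nonneg_left g1 ht0.le
  have hr : 1 - rV c' M (a, b, c, d, α, γ) =
      Real.sin (Real.pi / (((b - a + 2 : ℤ) : ℝ) + 2)) ^ 2 / 2 +
      Real.sin (Real.pi / (((d - c + 2 : ℤ) : ℝ) + 2)) ^ 2 / 2 + c' / (M : ℝ) ^ 2 := by
    simp only [rV]
    linarith
  rw [hr]
  simp only
  push_cast at e1 e2 ⊢
  nlinarith

/-- holes, explicit form -/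
theorem bad2X (hPow : TaskPow) (hIso : TaskIso) (hInt : TaskInt) {κ c' : ℝ} {M0 : ℕ}
    (hform : FormC κ c' M0) (hκ : 0 < κ) (hc : 0 < c')
    {β C' : ℝ} (hβ0 : 0 < β)
    (hZ' : ∀ᶠ t in atTop, Real.exp (-(3 * β + C') * ps β t) ≤ Es t (wt β))
    {e η : ℝ} (hη : 0 < η) (hη8 : η ≤ 1 / 8) (hcβ : 10 * (e * β + C' + 1) ≤ c' * β) :
    Tendsto (fun t => mu β t {G | G ∈ good1 η β t ∧
      ((bd G).card : ℝ) ≤ (pU (inn G)).card + (pV (inn G)).card + e * ps β t ∧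
      ∃ w : ℕ, κ * ps β t ≤ w ∧ G ∈ missing w}) atTop (𝓝 0) := by
  have hpsT := ps_tendsto' hβ0
  have hlim : Tendsto (fun t => Real.exp (8 * β) * ((4 * ps β t + 1) ^ 7 * Real.exp (-(ps β t)))) atTop
      (𝓝 0) := by
    have h1 : Tendsto (fun x : ℝ => (5 : ℝ) ^ 7 * (x ^ 7 * Real.exp (-x))) atTop (𝓝 0) := by
      have := (Real.tendsto_pow_mul_exp_neg_atTop_nhds_zero 7).const_mul ((5 : ℝ) ^ 7)
      simpa using this
    have h2 : Tendsto (fun x : ℝ => (4 * x + 1) ^ 7 * Real.exp (-x)) atTop (𝓝 0) := by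
      refine squeeze_zero' ?_ ?_ h1
      · filter_upwards [eventually_ge_atTop 1] with x hx
        positivity
      · filter_upwards [eventually_ge_atTop 1] with x hx
        rw [← mul_assoc, ← mul_pow]
        have : (4 * x + 1) ^ 7 ≤ (5 * x) ^ 7 := pow_le_pow_left₀ (by positivity) (by linarith) 7
        exact mul_le_mul_of_nonneg_right this (Real.exp_pos _).le
    have h3 := (h2.comp hpsT).const_mul (Real.exp (8 * β))
    rw [mul_zero] at h3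
    exact h3
  refine squeeze_zero' ?_ ?_ hlim
  · filter_upwards [eventually_gt_atTop 0] with t ht
    unfold mu
    refine div_nonneg (B2.Es_nonneg ht.le _ fun G => ?_) (B2.Es_nonneg ht.le _ fun G => ?_)
    · split_ifs
      · exact (Real.exp_pos _).le
      · exact le_rfl
    · exact (Real.exp_pos _).le
  · filter_upwards [eventually_gt_atTop 0, hZ', hpsT.eventually_ge_atTop 27,
      hpsT.eventually_ge_atTop (3 / η), hpsT.eventually_ge_atTop (2 * M0)] with t ht hZt hP6 hP3 hPM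
    obtain ⟨P, hPdef⟩ : ∃ P, P = ps β t := ⟨_, rfl⟩
    rw [← hPdef] at hZt hP6 hP3 hPM ⊢
    have hP0 : 0 < P := by linarith
    have htP : β * P ^ 3 / Real.pi ^ 2 = t := by rw [hPdef]; exact ps_cube' hβ0 ht.le
    have hηP : 3 ≤ η * P := by
      rw [div_le_iff₀ hη] at hP3; linarith
    have hnn : 0 ≤ (1 - η) * P := by nlinarith
    have hf1 := Nat.floor_le hnn
    have hf2 := Nat.lt_floor_add_one ((1 - η) * P)
    have hηP8 : η * P ≤ 1 / 8 * P := mul_le_mul_of_nonneg_right hη8 hP0.le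
    obtain ⟨M, hM⟩ : ∃ M : ℕ, M = ⌊(1 - η) * P⌋₊ := ⟨_, rfl⟩
    rw [← hM] at hf1 hf2
    have hMP : (M : ℝ) ≤ P := by nlinarith
    have hM2 : P / 2 ≤ M := by nlinarith
    have hM0' : (0 : ℝ) < M := by linarith
    have hMM0 : M0 ≤ M := by
      have : (M0 : ℝ) ≤ M := by linarith
      exact_mod_cast this
    have hκM : κ * M ≤ (⌈κ * P⌉₊ : ℕ) :=
      (mul_le_mul_of_nonneg_left hMP hκ.le).trans (Nat.le_ceil _)
    have heach := fun n => each_le hPow hform M ⌈κ * P⌉₊ hMM0 hκM n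
    obtain ⟨A, hAdef⟩ : ∃ A : Set (Finset Pt),
        A = {G | G ∈ good1 η β t ∧ ((bd G).card : ℝ) ≤ (pU (inn G)).card + (pV (inn G)).card + e * P ∧
          ∃ w : ℕ, κ * P ≤ w ∧ G ∈ missing w} := ⟨_, rfl⟩
    obtain ⟨bq, hbq⟩ : ∃ bq : ℤ × ℤ × ℤ × ℤ × ℤ × ℤ → ℝ, bq = fun q =>
        ((q.2.1 - q.1 : ℤ) : ℝ) + 1 + (((q.2.2.2.1 - q.2.2.1 : ℤ) : ℝ) + 1) - e * P := ⟨_, rfl⟩
    obtain ⟨V, hVdef⟩ : ∃ V, V = VV M ⌈κ * P⌉₊ := ⟨_, rfl⟩
    have hpath : ∀ (n : ℕ) (ω : Fin n → Stp), (if rng 0 ω ∈ A then wt β (rng 0 ω) else 0) ≤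
        ∑ q ∈ V, (if rng 0 ω ⊆ HV ⌈κ * P⌉₊ q then Real.exp (-β * bq q) else 0) := by
      intro n ω
      have hnn' : ∀ q ∈ V, 0 ≤ (if rng 0 ω ⊆ HV ⌈κ * P⌉₊ q then Real.exp (-β * bq q) else 0) := by
        intro q _
        split_ifs
        · exact (Real.exp_pos _).le
        · exact le_rfl
      by_cases hA : rng 0 ω ∈ A
      · rw [if_pos hA]
        rw [hAdef] at hA
        obtain ⟨⟨g1, g2, g3⟩, g4, w, hw, hG⟩ := hA
        rw [← hPdef] at g1 g2 g3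
        obtain ⟨q, hq, hsub, hbd⟩ := cover_tuple hInt hIso hη hη8 (by linarith) hηP ω g1 g2 g3 g4 hw hG
        rw [← hM, ← hVdef] at hq
        refine le_trans ?_ (single_le_sum hnn' hq)
        rw [if_pos hsub]
        unfold wt
        refine Real.exp_le_exp.2 ?_
        refine mul_le_mul_of_nonpos_left ?_ (by linarith)
        rw [hbq]
        exact hbd
      · rw [if_neg hA]
        exact sum_nonneg hnn'
    have hnum : Es t (fun G => if G ∈ A then wt β G else 0) ≤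
        0 + ∑ q ∈ V, (0 + (Real.exp (-β * bq q) * (4 * M + 1)) * Real.exp (-t * (1 - rV c' M q))) := by
      unfold Es
      apply Pool.Agent.H811R3.DM.poi_le V t 0 ht.le _ (fun _ => 0)
        (fun q => Real.exp (-β * bq q) * (4 * M + 1)) (fun q => rV c' M q)
      · intro n
        apply div_nonneg _ (by positivity)
        apply sum_nonneg
        intro ω _
        beta_reduce
        split_ifs
        · exact (Real.exp_pos _).le
        · exact le_rfl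
      · intro n
        rw [div_le_iff₀ (by positivity)]
        have h1 : ∑ ω : Fin n → Stp, (if rng 0 ω ∈ A then wt β (rng 0 ω) else 0) ≤
            ∑ ω : Fin n → Stp, ∑ q ∈ V,
              (if rng 0 ω ⊆ HV ⌈κ * P⌉₊ q then Real.exp (-β * bq q) else 0) :=
          sum_le_sum fun ω _ => hpath n ω
        refine h1.trans ?_
        rw [sum_comm, zero_add, sum_mul]
        refine sum_le_sum fun q hq => ?_
        rw [← sum_filter, sum_const, nsmul_eq_mul, zero_add]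
        rw [hVdef] at hq
        have h2 := heach n q hq
        have h3 : 0 ≤ Real.exp (-β * bq q) := (Real.exp_pos _).le
        calc _ ≤ (4 ^ n * (4 * M + 1) * rV c' M q ^ n) * Real.exp (-β * bq q) :=
              mul_le_mul_of_nonneg_right h2 h3
          _ = _ := by ring
    have hterm : ∀ q ∈ V, (0 + (Real.exp (-β * bq q) * (4 * M + 1)) * Real.exp (-t * (1 - rV c' M q))) ≤
        (4 * P + 1) * (Real.exp (8 * β) * Real.exp (-P) * Real.exp (-(3 * β + C') * P)) := by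
      intro q hq
      rw [hVdef] at hq
      have h1 := tuple_energy (κ := κ) (e := e) hβ0 hP6 hc htP hM2 hMP hq hκ.le
      have h2 : Real.exp (-β * bq q) * Real.exp (-t * (1 - rV c' M q)) ≤
          Real.exp (8 * β) * Real.exp (-P) * Real.exp (-(3 * β + C') * P) := by
        rw [← Real.exp_add, ← Real.exp_add, ← Real.exp_add]
        refine Real.exp_le_exp.2 ?_
        rw [hbq]
        have h4 : 10 * (e * β + C' + 1) * P ≤ c' * β * P := mul_le_mul_of_nonneg_right hcβ hP0.le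
        simp only
        linarith
      have h3 : (4 * (M : ℝ) + 1) ≤ 4 * P + 1 := by linarith
      calc _ = (4 * (M : ℝ) + 1) * (Real.exp (-β * bq q) * Real.exp (-t * (1 - rV c' M q))) := by ring
        _ ≤ _ := mul_le_mul h3 h2 (by positivity) (by positivity)
    have hsum : Es t (fun G => if G ∈ A then wt β G else 0) ≤
        Real.exp (8 * β) * ((4 * P + 1) ^ 7 * Real.exp (-P)) * Real.exp (-(3 * β + C') * P) := by
      refine hnum.trans ?_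
      rw [zero_add]
      refine (sum_le_card_nsmul _ _ _ hterm).trans ?_
      rw [nsmul_eq_mul]
      have h1 : (V.card : ℝ) ≤ (4 * P + 1) ^ 6 := by
        rw [hVdef]
        exact (VV_card M _).trans (pow_le_pow_left₀ (by positivity) (by linarith) 6)
      calc _ ≤ (4 * P + 1) ^ 6 *
            ((4 * P + 1) * (Real.exp (8 * β) * Real.exp (-P) * Real.exp (-(3 * β + C') * P))) :=
            mul_le_mul_of_nonneg_right h1 (by positivity)
        _ = _ := by ring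
    have hden : 0 < Real.exp (-(3 * β + C') * P) := Real.exp_pos _
    have hZpos : 0 < Es t (wt β) := lt_of_lt_of_le hden hZt
    rw [← hAdef]
    unfold mu
    rw [div_le_iff₀ hZpos]
    exact hsum.trans (mul_le_mul_of_nonneg_left hZt (by positivity))

end

end Pool.Agent.H51.DQ
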