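import Pool.Agent.H51.DQ.Main

set_option autoImplicit false

/-! # Transfer to the original coordinates -/

namespace Pool.Agent.H51.DQ

open Finset Filter Topology
open Pool.Agent.H308R3.DM Pool.Agent.H308R3.DM.Orig
open scoped Classical BigOperators ENNReal

noncomputable section

/-- the conclusions in the original coordinates -/
def TypO (A β p : ℝ) (G : Finset (ℤ × ℤ)) : Prop :=
  dHaus (rescaled G) diamond ≤ ENNReal.ofReal (A * β ^ (-(1 / 4) : ℝ)) ∧
  |Metric.diam (toC '' (G : Set (ℤ × ℤ))) - p| ≤ A * β ^ (-(1 / 4) : ℝ) * p ∧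
  |((innerBoundary G).card : ℝ) - 2 * p| ≤ A * β ^ (-(1 / 2) : ℝ) * p ∧
  ∃ a b c d : ℤ, G.image (fun x => x.1 + x.2) = Icc a b ∧ G.image (fun x => x.1 - x.2) = Icc c d ∧
    |((b - a : ℤ) : ℝ) - p| ≤ A * β ^ (-(1 / 2) : ℝ) * p ∧
    |((d - c : ℤ) : ℝ) - p| ≤ A * β ^ (-(1 / 2) : ℝ) * p ∧
    |((innerBoundary G).card : ℝ) - (((b - a : ℤ) : ℝ) + ((d - c : ℤ) : ℝ))| ≤ A / β * p

theorem pU_rot (G : Finset (ℤ × ℤ)) : pU (G.image rot) = G.image (fun x => x.1 + x.2) := by
  unfold pU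
  rw [Finset.image_image]
  rfl

theorem pV_rot (G : Finset (ℤ × ℤ)) : pV (G.image rot) = G.image (fun x => x.1 - x.2) := by
  unfold pV
  rw [Finset.image_image]
  rfl

theorem typ_iff {A β p : ℝ} (hβ : 0 < β) (G : Finset (ℤ × ℤ)) :
    TypO A β p G ↔ TypR A (β ^ (-(1 / 4) : ℝ)) p (G.image rot) := by
  have e2 : (β ^ (-(1 / 4) : ℝ)) ^ 2 = β ^ (-(1 / 2) : ℝ) := by
    rw [← Real.rpow_natCast, ← Real.rpow_mul hβ.le]
    norm_num
  have e4 : A * (β ^ (-(1 / 4) : ℝ)) ^ 4 = A / β := by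
    rw [← Real.rpow_natCast, ← Real.rpow_mul hβ.le]
    norm_num
    rw [Real.rpow_neg_one]
    rfl
  unfold TypO TypR
  rw [shape_rot, image_emb, pU_rot, pV_rot, ← card_boundary, e2, e4]
  exact Iff.rfl

/-- every limiting shape is within the same distance -/
theorem shape_of_typ {A β : ℝ} (hβ : 0 < β)
    (h : Tendsto (fun t => gibbs β t {G | ¬ TypO A β (ps β t) G}) atTop (𝓝 0))
    (S : Set ℂ) (hS : IsLimitingShape β S) :
    dHaus S diamond ≤ ENNReal.ofReal (A * β ^ (-(1 / 4) : ℝ)) := by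
  refine ENNReal.le_of_forall_pos_le_add fun ε hε _ => ?_
  have h1 := h.add (hS ε (by exact_mod_cast hε))
  rw [add_zero] at h1
  by_contra hcon
  push Not at hcon
  have h2 : ∀ᶠ t in atTop, (1 : ℝ) ≤ gibbs β t {G | ¬ TypO A β (ps β t) G} +
      gibbs β t {G | (ε : ℝ≥0∞) < dHaus (rescaled G) S} := by
    filter_upwards [eventually_ge_atTop 0] with t ht
    have e1 : gibbs β t {G | ¬ TypO A β (ps β t) G} =
        mu β t {G | ¬ TypR A (β ^ (-(1 / 4) : ℝ)) (ps β t) G} := by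
      refine gibbs_eq β t _ _ fun G => ?_
      exact not_congr (typ_iff hβ G)
    have e2 : gibbs β t {G | (ε : ℝ≥0∞) < dHaus (rescaled G) S} =
        mu β t {G | (ε : ℝ≥0∞) < dHaus (shape G) S} := by
      refine gibbs_eq β t _ _ fun G => ?_
      simp only [Set.mem_ofPred_eq, shape_rot]
    rw [e1, e2]
    refine (mu_univ hβ.le ht).symm.le.trans ?_
    refine mu_le_add hβ.le ht fun n ω _ => ?_
    by_contra h3
    push Not at h3
    obtain ⟨h4, h5⟩ := h3
    have h4' : TypR A (β ^ (-(1 / 4) : ℝ)) (ps β t) (rng 0 ω) := by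
      by_contra h
      exact h4 h
    simp only [Set.mem_ofPred_eq, not_lt] at h5
    have h6 := dHaus_triangle S (shape (rng 0 ω)) diamond
    rw [dHaus_symm S (shape (rng 0 ω))] at h6
    have h7 : dHaus S diamond ≤ ENNReal.ofReal (A * β ^ (-(1 / 4) : ℝ)) + ε := by
      refine h6.trans ?_
      rw [add_comm]
      exact add_le_add h4'.1 h5
    exact absurd h7 (not_le.mpr hcon)
  have h3 := ge_of_tendsto h1 h2
  linarith

theorem finalX :
    (∀ S : ℝ → Set ℂ, (∀ᶠ β in atTop, IsLimitingShape β (S β)) →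
      Tendsto (fun β => dHaus (S β) diamond) atTop (𝓝 0)) ∧
    ∃ A β₀ : ℝ, 0 < A ∧ 0 < β₀ ∧ ∀ β : ℝ, β₀ ≤ β →
      (∀ S : Set ℂ, IsLimitingShape β S →
        dHaus S diamond ≤ ENNReal.ofReal (A * β ^ (-(1 / 4) : ℝ))) ∧
      Tendsto (fun t => gibbs β t {G | ¬ TypO A β (ps β t) G}) atTop (𝓝 0) ∧
      ∀ᶠ t in atTop, |Real.log (Orig.expect t fun G => Real.exp (-β * (innerBoundary G).card)) +
        3 * β * ps β t| ≤ A * ps β t := by
  obtain ⟨A, β₀, hA, hβ₀, h⟩ := mainX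
  have hβ₀0 : 0 < β₀ := by linarith
  have hmain : ∀ β : ℝ, β₀ ≤ β → Tendsto (fun t => gibbs β t {G | ¬ TypO A β (ps β t) G}) atTop (𝓝 0) := by
    intro β hβ
    have hβ0 : 0 < β := by linarith
    refine (h β hβ).1.congr fun t => ?_
    symm
    refine gibbs_eq β t _ _ fun G => ?_
    exact not_congr (typ_iff hβ0 G)
  have hshape : ∀ β : ℝ, β₀ ≤ β → ∀ S : Set ℂ, IsLimitingShape β S →
      dHaus S diamond ≤ ENNReal.ofReal (A * β ^ (-(1 / 4) : ℝ)) :=
    fun β hβ S hS => shape_of_typ (by linarith) (hmain β hβ) S hS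
  refine ⟨?_, A, β₀, by linarith, by linarith, fun β hβ => ⟨hshape β hβ, hmain β hβ, ?_⟩⟩
  · intro S hS
    have hlim : Tendsto (fun β : ℝ => ENNReal.ofReal (A * β ^ (-(1 / 4) : ℝ))) atTop (𝓝 0) := by
      have h1 : Tendsto (fun β : ℝ => β ^ (-(1 / 4) : ℝ)) atTop (𝓝 0) :=
        tendsto_rpow_neg_atTop (by norm_num)
      have h2 := h1.const_mul A
      rw [mul_zero] at h2
      have h3 := ENNReal.tendsto_ofReal h2
      rwa [ENNReal.ofReal_zero] at h3
    refine tendsto_of_tendsto_of_tendsto_of_le_of_le' tendsto_const_nhds hlim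
      (Filter.Eventually.of_forall fun _ => zero_le) ?_
    filter_upwards [hS, eventually_ge_atTop β₀] with β h1 h2
    exact hshape β h2 (S β) h1
  · have hβ0 : 0 < β := by linarith
    filter_upwards [(h β hβ).2] with t ht
    have e : Orig.expect t (fun G => Real.exp (-β * (innerBoundary G).card)) = Es t (wt β) := by
      refine expect_eq t _ _ fun G => ?_
      simp only [wt, card_boundary]
    rw [e]
    have hpos : 0 < Es t (wt β) := (Real.exp_pos _).trans_le ht.1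
    have h1 : -(3 * β + A) * ps β t ≤ Real.log (Es t (wt β)) := (Real.le_log_iff_exp_le hpos).mpr ht.1
    have h2 : Real.log (Es t (wt β)) ≤ -(3 * β - A) * ps β t := (Real.log_le_iff_le_exp hpos).mpr ht.2
    rw [abs_le]
    constructor <;> linarith

end

end Pool.Agent.H51.DQ
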