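import Pool.Graph.R_seed8.H260R4.DMForm
import Pool.Graph.R_seed8.H431R3.DM.Gap
import Pool.Agent.H51.DQ.Bad2

set_option autoImplicit false

/-! # The form bound with a hole of side `κ M`: gain of order `κ⁴ / M²` -/

namespace Pool.Agent.H51.DQ

open Finset
open Pool.Agent.H308R3.DM Pool.Agent.H260R4.DMForm
open scoped Classical

noncomputable section

theorem row_energy (hG : TaskGap) (m : ℕ) (hm : 1 ≤ m) (g : ℕ → ℝ) (h0 : g 0 = 0)
    (h1 : g (m + 1) = 0) :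
    ∑ i ∈ Icc 1 m, g i * (g (i - 1) + 2 * g i + g (i + 1)) ≤
      4 * Real.cos (Real.pi / (2 * (m + 1))) ^ 2 * ∑ i ∈ Icc 1 m, (g i) ^ 2 := by
  have h := hG m hm g h0 h1
  have hd := dfc_nonneg m hm g
  have h4 : ∑ i ∈ Icc 1 m, g i * (g (i - 1) + 2 * g i + g (i + 1))
      = 4 * ∑ i ∈ Icc 1 m, g i * ((g (i - 1) + 2 * g i + g (i + 1)) / 4) := by
    rw [mul_sum]
    exact sum_congr rfl fun i _ => by ring
  have h8 : dfc m g = ∑ i ∈ Icc 1 m, (g i) ^ 2
      - (∑ i ∈ Icc 1 m, g i * Real.sin (Real.pi * i / (m + 1))) ^ 2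
        / (∑ i ∈ Icc 1 m, Real.sin (Real.pi * i / (m + 1)) ^ 2) := rfl
  rw [← h8] at h
  rw [h4]
  have hm' : (0 : ℝ) < m := by exact_mod_cast hm
  have h9 : 0 ≤ 1 / (4 * (m : ℝ) ^ 2) * dfc m g := mul_nonneg (by positivity) hd
  linarith

theorem row_hole (hG : TaskGap) (m i0 L : ℕ) (hi0 : 1 ≤ i0) (hL : 1 ≤ L) (hiL : i0 + L ≤ m + 1)
    (g : ℕ → ℝ) (h0 : g 0 = 0) (h1 : g (m + 1) = 0) (hz : ∀ j < L, g (i0 + j) = 0) :
    ∑ i ∈ Icc 1 m, g i * (g (i - 1) + 2 * g i + g (i + 1)) ≤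
      4 * Real.cos (Real.pi / (2 * (((m + 1 - L : ℕ) : ℝ) + 1))) ^ 2 * ∑ i ∈ Icc 1 m, (g i) ^ 2 := by
  obtain ⟨m', hm'⟩ : ∃ m' : ℕ, m' = m + 1 - L := ⟨_, rfl⟩
  obtain ⟨φ, hφ⟩ : ∃ φ : ℕ → ℕ, φ = fun j => if j ≤ i0 then j else j + (L - 1) := ⟨_, rfl⟩
  have hφ1 : ∀ j, j ≤ i0 → φ j = j := fun j hj => by rw [hφ]; simp only; rw [if_pos hj]
  have hφ2 : ∀ j, i0 < j → φ j = j + (L - 1) := fun j hj => by
    rw [hφ]; simp only; rw [if_neg (by omega)]
  have hinj : ∀ x y, φ x = φ y → x = y := by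
    intro x y hxy
    rcases le_or_gt x i0 with hx | hx <;> rcases le_or_gt y i0 with hy | hy
    · rw [hφ1 x hx, hφ1 y hy] at hxy; exact hxy
    · rw [hφ1 x hx, hφ2 y hy] at hxy; omega
    · rw [hφ2 x hx, hφ1 y hy] at hxy; omega
    · rw [hφ2 x hx, hφ2 y hy] at hxy; omega
  have hsum : ∀ F : ℕ → ℝ, (∀ i, g i = 0 → F i = 0) →
      ∑ i ∈ Icc 1 m, F i = ∑ j ∈ Icc 1 m', F (φ j) := by
    intro F hF
    rw [← sum_image (f := F) (g := φ) (fun _ _ _ _ h => hinj _ _ h)]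
    symm
    apply sum_subset
    · intro i hi
      obtain ⟨j, hj, rfl⟩ := mem_image.1 hi
      rw [mem_Icc] at hj ⊢
      rcases le_or_gt j i0 with h | h
      · rw [hφ1 j h]; omega
      · rw [hφ2 j h]; omega
    · intro i hi hni
      apply hF
      rw [mem_Icc] at hi
      by_cases h : i0 ≤ i ∧ i < i0 + L
      · obtain ⟨j, hj⟩ : ∃ j, i = i0 + j := ⟨i - i0, by omega⟩
        rw [hj]
        exact hz j (by omega)
      · exfalso
        apply hni
        rw [mem_image]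
        rcases Nat.lt_or_ge i i0 with h2 | h2
        · exact ⟨i, by rw [mem_Icc]; omega, hφ1 i h2.le⟩
        · refine ⟨i - (L - 1), by rw [mem_Icc]; omega, ?_⟩
          rw [hφ2 _ (by omega)]
          omega
  have hz0 : g i0 = 0 := hz 0 (by omega)
  have hzL : g (i0 + L - 1) = 0 := by
    have := hz (L - 1) (by omega)
    rwa [show i0 + (L - 1) = i0 + L - 1 by omega] at this
  have e1 := hsum (fun i => g i * (g (i - 1) + 2 * g i + g (i + 1))) (fun i hi => by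
    rw [hi, zero_mul])
  have e2 := hsum (fun i => g i ^ 2) (fun i hi => by rw [hi]; ring)
  have hE := row_energy hG m' (by omega) (fun j => g (φ j)) (by rw [hφ1 0 (by omega)]; exact h0)
    (by
      rcases le_or_gt (m' + 1) i0 with h | h
      · omega
      · rw [hφ2 _ h, show m' + 1 + (L - 1) = m + 1 by omega]; exact h1)
  rw [e1, e2, ← hm']
  refine le_trans (le_of_eq ?_) hE
  apply sum_congr rfl
  intro j hj
  rw [mem_Icc] at hj
  rcases lt_trichotomy j i0 with h | h | h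
  · rw [hφ1 j h.le, hφ1 (j - 1) (by omega), hφ1 (j + 1) (by omega)]
  · rw [hφ1 j h.le, h, hz0, zero_mul, zero_mul]
  · rw [hφ2 j h, hφ2 (j + 1) (by omega), show j + 1 + (L - 1) = j + (L - 1) + 1 by omega]
    rcases Nat.lt_or_ge i0 (j - 1) with h2 | h2
    · rw [hφ2 (j - 1) h2, show j - 1 + (L - 1) = j + (L - 1) - 1 by omega]
    · have h3 : j = i0 + 1 := by omega
      rw [hφ1 (j - 1) (by omega), show j - 1 = i0 by omega, hz0,
        show j + (L - 1) - 1 = i0 + L - 1 by omega, hzL]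

theorem cos_gain {κ : ℝ} (hκ : 0 < κ) {M a : ℕ} {y : ℝ} (hM : 2 ≤ M) (ha : a ≤ 2 * M)
    (hy4 : 4 ≤ y) (hy : y ≤ (a : ℝ) + 2 - κ * M / 2) :
    4 * Real.cos (Real.pi / y) ^ 2 ≤ 4 * Real.cos (Real.pi / (a + 2)) ^ 2 - κ / 2 / (M : ℝ) ^ 2 := by
  have hpi := Real.pi_pos
  have hM' : (2 : ℝ) ≤ M := by exact_mod_cast hM
  have ha' : (a : ℝ) ≤ 2 * M := by exact_mod_cast ha
  have hκM : 0 < κ * M := by positivity
  obtain ⟨z, hz⟩ : ∃ z : ℝ, z = (a : ℝ) + 2 := ⟨_, rfl⟩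
  rw [← hz] at hy ⊢
  have hz3 : z ≤ 3 * M := by linarith
  have hy0 : 0 < y := by linarith
  have hyz : y ≤ z := by linarith
  have hz0 : 0 < z := by linarith
  obtain ⟨x1, hx1⟩ : ∃ x1 : ℝ, x1 = Real.pi / y := ⟨_, rfl⟩
  obtain ⟨x0, hx0⟩ : ∃ x0 : ℝ, x0 = Real.pi / z := ⟨_, rfl⟩
  rw [← hx1, ← hx0]
  have hx1y : x1 * y = Real.pi := by rw [hx1]; field_simp
  have hx0z : x0 * z = Real.pi := by rw [hx0]; field_simp
  have hx10 : 0 < x1 := by rw [hx1]; positivity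
  have hx00 : 0 < x0 := by rw [hx0]; positivity
  have hx14 : x1 ≤ Real.pi / 4 := by rw [hx1]; exact div_le_div_of_nonneg_left hpi.le (by norm_num) hy4
  have hle : x0 ≤ x1 := by rw [hx0, hx1]; exact div_le_div_of_nonneg_left hpi.le hy0 hyz
  have hdiff : Real.pi * κ / (18 * M) ≤ x1 - x0 := by
    have e : x1 - x0 = Real.pi * (z - y) / (y * z) := by
      rw [hx1, hx0]; field_simp
    rw [e, div_le_div_iff₀ (by positivity) (by positivity)]
    have h1 : y * z ≤ (3 * M) * (3 * M) := mul_le_mul (by linarith) hz3 hz0.le (by positivity)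
    have h2 : κ * M / 2 ≤ z - y := by linarith
    calc Real.pi * κ * (y * z) ≤ Real.pi * κ * ((3 * M) * (3 * M)) :=
          mul_le_mul_of_nonneg_left h1 (by positivity)
      _ = Real.pi * (κ * M / 2) * (18 * M) := by ring
      _ ≤ Real.pi * (z - y) * (18 * M) := by
          apply mul_le_mul_of_nonneg_right _ (by positivity)
          exact mul_le_mul_of_nonneg_left h2 hpi.le
  have hs1 : κ / (9 * M) ≤ Real.sin (x1 - x0) := by
    have h := Real.mul_le_sin (x := x1 - x0) (by linarith) (by linarith)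
    refine le_trans ?_ h
    calc κ / (9 * M) = 2 / Real.pi * (Real.pi * κ / (18 * M)) := by field_simp; ring
      _ ≤ _ := mul_le_mul_of_nonneg_left hdiff (by positivity)
  have hs2 : 4 / (3 * (M : ℝ)) ≤ Real.sin (x1 + x0) := by
    have h := Real.mul_le_sin (x := x1 + x0) (by linarith) (by linarith)
    refine le_trans ?_ h
    have h3 : Real.pi / (3 * M) ≤ x0 := by
      rw [hx0]; exact div_le_div_of_nonneg_left hpi.le hz0 hz3
    calc 4 / (3 * (M : ℝ)) = 2 / Real.pi * (2 * (Real.pi / (3 * M))) := by field_simp; ring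
      _ ≤ _ := mul_le_mul_of_nonneg_left (by linarith) (by positivity)
  have hprod : κ / (9 * M) * (4 / (3 * (M : ℝ))) ≤ Real.sin (x1 - x0) * Real.sin (x1 + x0) :=
    mul_le_mul hs1 hs2 (by positivity) (le_trans (by positivity) hs1)
  have hid : Real.cos x0 ^ 2 - Real.cos x1 ^ 2 = Real.sin (x1 - x0) * Real.sin (x1 + x0) := by
    rw [Real.sin_sub, Real.sin_add]
    have s1 := Real.sin_sq_add_cos_sq x1
    have s0 := Real.sin_sq_add_cos_sq x0
    have f1 : Real.sin x1 ^ 2 = 1 - Real.cos x1 ^ 2 := by linarith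
    have f0 : Real.sin x0 ^ 2 = 1 - Real.cos x0 ^ 2 := by linarith
    calc Real.cos x0 ^ 2 - Real.cos x1 ^ 2
        = (1 - Real.cos x1 ^ 2) * Real.cos x0 ^ 2 - Real.cos x1 ^ 2 * (1 - Real.cos x0 ^ 2) := by ring
      _ = Real.sin x1 ^ 2 * Real.cos x0 ^ 2 - Real.cos x1 ^ 2 * Real.sin x0 ^ 2 := by rw [f1, f0]
      _ = _ := by ring
  have hfin : κ / 2 / (M : ℝ) ^ 2 ≤ 4 * (κ / (9 * M) * (4 / (3 * (M : ℝ)))) := by
    have e : 4 * (κ / (9 * M) * (4 / (3 * (M : ℝ)))) = 16 / 27 * κ / (M : ℝ) ^ 2 := by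
      field_simp
      ring
    rw [e]
    apply div_le_div_of_nonneg_right _ (by positivity)
    linarith
  linarith

theorem rows2 (hG : TaskGap) (κ : ℝ) (hκ : 0 < κ) (M : ℕ) (u1 v1 α γ : ℤ) (a b w : ℕ)
    (hM : 2 ≤ M) (hMκ : 4 ≤ κ * M) (hMa : M ≤ a) (haM : a ≤ 2 * M)
    (hw : κ * M ≤ w) (h1 : u1 < α) (h2 : α + w < u1 + a)
    (H : Finset Pt) (hH : InB u1 v1 a b H) (hb : ∀ x ∈ H, x ∉ boxc α γ w)
    (f : Pt → ℝ) (hf : ∀ x, x ∉ H → f x = 0) :
      ∑ x ∈ H, f x * (f (x.1 - 2, x.2) + 2 * f x + f (x.1 + 2, x.2)) ≤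
        4 * Real.cos (Real.pi / (a + 2)) ^ 2 * ∑ x ∈ H, f x ^ 2 -
        κ / 2 / (M : ℝ) ^ 2 * ∑ x ∈ H, (if γ ≤ x.2 ∧ x.2 ≤ γ + w then f x ^ 2 else 0) := by
  set m := a / 2 with hmdef
  have hm : 1 ≤ m := by omega
  have hmM : m ≤ M := by omega
  have hma : 2 * (m + 1) ≤ a + 2 := by omega
  let g : ℤ → ℕ → ℝ := fun v i => f (st u1 v + 2 * (i : ℤ), v)
  have hout : ∀ v, ∀ t : ℤ, (t ≤ u1 ∨ u1 + a ≤ t) → f (t, v) = 0 := by
    intro v t ht
    apply hf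
    intro hx
    obtain ⟨h3, h4, _⟩ := hH _ hx
    simp only at h3 h4
    omega
  have hg0 : ∀ v, g v 0 = 0 := by
    intro v
    apply hout
    left
    simp only [st]; omega
  have hgm : ∀ v, g v (m + 1) = 0 := by
    intro v
    apply hout
    right
    simp only [st]; push_cast; omega
  have e1 : ∑ x ∈ H, f x * (f (x.1 - 2, x.2) + 2 * f x + f (x.1 + 2, x.2))
      = ∑ v ∈ Icc v1 (v1 + b), ∑ i ∈ Icc 1 m, g v i * (g v (i - 1) + 2 * g v i + g v (i + 1)) := by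
    rw [rowsum u1 v1 a b H hH _ (fun x hx => by rw [hf x hx, zero_mul])]
    apply sum_congr rfl
    intro v _
    apply sum_congr rfl
    intro i hi
    have hi1 := (mem_Icc.1 hi).1
    simp only [g]
    have e2 : st u1 v + 2 * (i : ℤ) - 2 = st u1 v + 2 * ((i - 1 : ℕ) : ℤ) := by omega
    have e3 : st u1 v + 2 * (i : ℤ) + 2 = st u1 v + 2 * ((i + 1 : ℕ) : ℤ) := by
      push_cast; ring
    rw [e2, e3]
  have e2 : ∑ x ∈ H, f x ^ 2 = ∑ v ∈ Icc v1 (v1 + b), ∑ i ∈ Icc 1 m, g v i ^ 2 :=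
    rowsum u1 v1 a b H hH _ (fun x hx => by rw [hf x hx]; ring)
  have e3 : ∑ x ∈ H, (if γ ≤ x.2 ∧ x.2 ≤ γ + w then f x ^ 2 else 0)
      = ∑ v ∈ Icc v1 (v1 + b), ∑ i ∈ Icc 1 m,
        (if γ ≤ v ∧ v ≤ γ + w then g v i ^ 2 else 0) :=
    rowsum u1 v1 a b H hH _ (fun x hx => by rw [hf x hx]; simp)
  rw [e1, e2, e3, mul_sum, mul_sum, ← sum_sub_distrib]
  apply sum_le_sum
  intro v _
  by_cases hv : γ ≤ v ∧ v ≤ γ + w
  · simp only [if_pos hv]
    have hwM : (0 : ℝ) < w := by linarith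
    have hw4 : 4 ≤ w := by
      have : (4 : ℝ) ≤ w := by linarith
      exact_mod_cast this
    obtain ⟨L, hL⟩ : ∃ L : ℕ, L = (w + 1) / 2 := ⟨_, rfl⟩
    obtain ⟨i0, hi0⟩ : ∃ i0 : ℕ, i0 = ((α - st u1 v + 1) / 2).toNat := ⟨_, rfl⟩
    have hst : st u1 v = u1 - (u1 - v) % 2 := rfl
    have hrow := row_hole hG m i0 L (by omega) (by omega) (by omega) (g v) (hg0 v) (hgm v) (by
      intro j hj
      simp only [g]
      apply hf
      intro hx
      refine hb _ hx ?_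
      unfold boxc
      refine ⟨?_, ?_, hv.1, hv.2⟩ <;> simp only <;> push_cast <;> omega)
    refine hrow.trans ?_
    rw [← sub_mul]
    apply mul_le_mul_of_nonneg_right _ (sum_nonneg fun i _ => sq_nonneg _)
    apply cos_gain hκ hM haM
    · have : 1 ≤ m + 1 - L := by omega
      have h5 : (1 : ℝ) ≤ ((m + 1 - L : ℕ) : ℝ) := by exact_mod_cast this
      linarith
    · have h5 : 2 * (m + 1 - L + 1) + w ≤ a + 4 := by omega
      have h6 : 2 * (((m + 1 - L : ℕ) : ℝ) + 1) + w ≤ a + 4 := by exact_mod_cast h5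
      linarith
  · simp only [if_neg hv, sum_const_zero, mul_zero, sub_zero]
    have h3 := row_energy hG m hm (g v) (hg0 v) (hgm v)
    refine h3.trans ?_
    apply mul_le_mul_of_nonneg_right _ (sum_nonneg fun i _ => sq_nonneg _)
    have hpi := Real.pi_pos
    have hma' : 2 * ((m : ℝ) + 1) ≤ a + 2 := by exact_mod_cast hma
    have hm' : (1 : ℝ) ≤ m := by exact_mod_cast hm
    have h7 : Real.pi / (a + 2) ≤ Real.pi / (2 * ((m : ℝ) + 1)) :=
      div_le_div_of_nonneg_left hpi.le (by positivity) hma'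
    have h8 : Real.pi / (2 * ((m : ℝ) + 1)) ≤ Real.pi / 2 :=
      div_le_div_of_nonneg_left hpi.le (by norm_num) (by linarith)
    have h9 : 0 ≤ Real.cos (Real.pi / (2 * ((m : ℝ) + 1))) :=
      Real.cos_nonneg_of_mem_Icc ⟨by
        have : 0 ≤ Real.pi / (2 * ((m : ℝ) + 1)) := by positivity
        linarith, h8⟩
    have h10 : Real.cos (Real.pi / (2 * ((m : ℝ) + 1))) ^ 2 ≤ Real.cos (Real.pi / (a + 2)) ^ 2 := by
      apply pow_le_pow_left₀ h9
      apply Real.cos_le_cos_of_nonneg_of_le_pi (by positivity) (by linarith) h7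
    linarith

theorem formX (hG : TaskGap) {κ : ℝ} (hκ : 0 < κ) (hκ1 : κ ≤ 1) :
    FormC κ (κ ^ 4 / 24576) ⌈4 / κ + 2⌉₊ := by
  obtain ⟨k, hkdef⟩ : ∃ k, k = κ ^ 3 / 512 := ⟨_, rfl⟩
  have hk : 0 < k := by rw [hkdef]; positivity
  have hk1 : k ≤ 1 := by
    have : κ ^ 3 ≤ 1 := pow_le_one₀ hκ.le hκ1
    rw [hkdef]; linarith
  intro M a b w u1 v1 α γ hM0 hMa haM hMb hbM hw h1 h2 h3 h4
  have hM0' : 4 / κ + 2 ≤ M := (Nat.le_ceil _).trans (by exact_mod_cast hM0)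
  have h4κ : 0 < 4 / κ := by positivity
  have hMr : (2 : ℝ) ≤ M := by linarith
  have hM2 : 2 ≤ M := by exact_mod_cast hMr
  have hM : 1 ≤ M := by omega
  have hMκ : 4 ≤ κ * M := by
    have : 4 / κ ≤ M := by linarith
    rw [div_le_iff₀ hκ] at this
    linarith
  have hcos : ∀ n : ℕ, 2 ≤ n → (1 : ℝ) / 2 ≤ Real.cos (Real.pi / (n + 2)) ^ 2 := by
    intro n hn
    have hpi := Real.pi_pos
    have hn' : (2 : ℝ) ≤ n := by exact_mod_cast hn
    have h5 : Real.pi / (n + 2) ≤ Real.pi / 4 :=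
      div_le_div_of_nonneg_left hpi.le (by norm_num) (by linarith)
    have h6 : Real.cos (Real.pi / 4) ≤ Real.cos (Real.pi / (n + 2)) :=
      Real.cos_le_cos_of_nonneg_of_le_pi (by positivity) (by linarith) h5
    rw [Real.cos_pi_div_four] at h6
    have h7 : (Real.sqrt 2 / 2) ^ 2 ≤ Real.cos (Real.pi / (n + 2)) ^ 2 :=
      pow_le_pow_left₀ (by positivity) h6 2
    have h8 : (Real.sqrt 2 / 2) ^ 2 = 1 / 2 := by
      rw [div_pow, Real.sq_sqrt (by norm_num)]; norm_num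
    rw [h8] at h7
    exact h7
  refine ⟨?_, ?_⟩
  · have h5 := hcos a (by omega)
    have h6 := hcos b (by omega)
    have h7 : κ ^ 4 / 24576 / (M : ℝ) ^ 2 ≤ 1 / 2 := by
      rw [div_le_iff₀ (by positivity)]
      have : κ ^ 4 ≤ 1 := pow_le_one₀ hκ.le hκ1
      nlinarith
    linarith
  · intro H hHb f hf
    have hH : InB u1 v1 a b H := by
      intro x hx
      obtain ⟨h5, h6, h7, h8, h9⟩ := (hHb x hx).1
      exact ⟨h5, h6, h7, h8, h9⟩
    have hD := rows2 hG κ hκ M u1 v1 α γ a b w hM2 hMκ hMa haM hw h1 h2 H hH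
      (fun x hx => (hHb x hx).2) f hf
    let H' : Finset Pt := H.image Prod.swap
    let f' : Pt → ℝ := fun x => f x.swap
    have hsw : ∀ x : Pt, x ∈ H' ↔ x.swap ∈ H := by
      intro x
      simp only [H', mem_image]
      constructor
      · rintro ⟨y, hy, rfl⟩
        simpa using hy
      · intro hx
        exact ⟨x.swap, hx, by simp⟩
    have hH' : InB v1 u1 b a H' := by
      intro x hx
      obtain ⟨h5, h6, h7, h8, h9⟩ := hH _ ((hsw x).1 hx)
      simp only [Prod.fst_swap, Prod.snd_swap] at h5 h6 h7 h8 h9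
      exact ⟨h7, h8, h5, h6, by omega⟩
    have hf' : ∀ x, x ∉ H' → f' x = 0 := by
      intro x hx
      apply hf
      rwa [hsw] at hx
    obtain ⟨E, hE0, hE1, _, hE3⟩ := rows hG κ hκ M v1 u1 γ α b a w hM (by omega) hbM hw h3 h4
      H' hH' f' hf'
    have hsum : ∀ F : Pt → ℝ, ∑ x ∈ H', F x = ∑ x ∈ H, F x.swap := by
      intro F
      exact sum_image (fun _ _ _ _ h => Prod.swap_injective h)
    rw [hsum, hsum] at hE1
    rw [hsum, hsum] at hE3
    simp only [f', Prod.swap_swap, Prod.fst_swap, Prod.snd_swap, Prod.swap_prod_mk] at hE1 hE3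
    have hkey := key H f hf
    obtain ⟨N, hN⟩ : ∃ N, N = ∑ x ∈ H, f x ^ 2 := ⟨_, rfl⟩
    obtain ⟨S, hS⟩ : ∃ S, S = ∑ x ∈ H, (if γ ≤ x.2 ∧ x.2 ≤ γ + w then f x ^ 2 else 0) := ⟨_, rfl⟩
    rw [← hN, ← hS] at hD hE3
    rw [← hN] at hE1 ⊢
    rw [← hkdef] at hE3
    have hN0 : 0 ≤ N := by rw [hN]; exact sum_nonneg fun x _ => sq_nonneg _
    have hS0 : 0 ≤ S := by
      rw [hS]
      exact sum_nonneg fun x _ => by split_ifs <;> positivity
    have hM20 : 0 < (M : ℝ) ^ 2 := by positivity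
    -- `κ k N ≤ 6 (κ S / 2 + E)`
    have hfin : κ * k / 6 * N ≤ κ / 2 * S + E := by
      have h5 : κ * (k * (N - E)) ≤ κ * (2 * S + 2 * E) := mul_le_mul_of_nonneg_left hE3 hκ.le
      have h6 : κ * k * E ≤ 1 * E := by
        apply mul_le_mul_of_nonneg_right _ hE0
        calc κ * k ≤ 1 * 1 := mul_le_mul hκ1 hk1 hk.le zero_le_one
          _ = 1 := one_mul 1
      have h7 : κ * E ≤ 1 * E := mul_le_mul_of_nonneg_right hκ1 hE0
      have h8 : 0 ≤ κ * S := mul_nonneg hκ.le hS0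
      nlinarith
    have hg : κ * k / 6 * N / (M : ℝ) ^ 2 ≤ κ / 2 / (M : ℝ) ^ 2 * S + E / (M : ℝ) ^ 2 := by
      have e : κ / 2 / (M : ℝ) ^ 2 * S + E / (M : ℝ) ^ 2 = (κ / 2 * S + E) / (M : ℝ) ^ 2 := by ring
      rw [e]
      exact div_le_div_of_nonneg_right hfin hM20.le
    have h7 : κ ^ 4 / 24576 / (M : ℝ) ^ 2 * N * 8 = κ * k / 6 * N / (M : ℝ) ^ 2 := by
      rw [hkdef]; ring
    nlinarith

end

end Pool.Agent.H51.DQ
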