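import Pool.Graph.R_seed8.H711R5.DM.Geo

set_option autoImplicit false

/-! # Geometry with explicit constants (after `Pool.Graph.R_seed8.H711R5.DM.Geo`) -/

namespace Pool.Agent.H51.DQ

open Pool.Agent.H308R3.DM

open Geo711 in
theorem geoX {δ ε : ℝ} (hδ0 : 0 < δ) (hδ2 : δ ≤ 1 / 12) (hε' : ε = 24 * δ)
    (p : ℝ) (G : Finset Pt) (a b c d : ℤ) (w : ℕ) (hp : 8 / ε + 1 ≤ p) (hG : G.Nonempty)
    (hU : pU G = Finset.Icc a b) (hV : pV G = Finset.Icc c d)
    (hab : |((b : ℝ) - a) - p| ≤ δ * p) (hcd : |((d : ℝ) - c) - p| ≤ δ * p) (hw : (w : ℝ) ≤ δ * p)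
    (hbox : ∀ α γ : ℤ, a ≤ α → α + w ≤ b → c ≤ γ → γ + w ≤ d → ∃ x ∈ G, x ∈ boxc α γ w) :
    hd (shape G) Dmd ≤ ENNReal.ofReal ε ∧ (1 - 3 * δ) * p ≤ Metric.diam (emb '' (G : Set Pt)) ∧
      Metric.diam (emb '' (G : Set Pt)) ≤ (1 + δ) * p := by
  have hε : 0 < ε := by rw [hε']; positivity
  have hδ1 : δ ≤ ε / 24 := by rw [hε']; linarith
  have hp0 : 0 < p := by
    have : 0 < 8 / ε + 1 := by positivity
    linarith
  have hpε : 8 ≤ ε * p := by
    have h1 : 8 / ε ≤ p := by linarith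
    rw [div_le_iff₀ hε] at h1
    linarith
  rw [abs_le] at hab hcd
  obtain ⟨hab1, hab2⟩ := hab
  obtain ⟨hcd1, hcd2⟩ := hcd
  have hw0 : (0 : ℝ) ≤ w := Nat.cast_nonneg w
  have hδp : δ * p ≤ 1 / 12 * p := mul_le_mul_of_nonneg_right hδ2 hp0.le
  have hδp0 : 0 < δ * p := mul_pos hδ0 hp0
  have hab3 : a + w ≤ b := by
    have : ((a + w : ℤ) : ℝ) ≤ b := by push_cast; linarith
    exact_mod_cast this
  have hcd3 : c + w ≤ d := by
    have : ((c + w : ℤ) : ℝ) ≤ d := by push_cast; linarith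
    exact_mod_cast this
  have hGu : ∀ x ∈ G, (a : ℝ) ≤ x.1 ∧ (x.1 : ℝ) ≤ b := by
    intro x hx
    have : x.1 ∈ Finset.Icc a b := by
      rw [← hU]; exact Finset.mem_image_of_mem _ hx
    rw [Finset.mem_Icc] at this
    exact ⟨by exact_mod_cast this.1, by exact_mod_cast this.2⟩
  have hGv : ∀ x ∈ G, (c : ℝ) ≤ x.2 ∧ (x.2 : ℝ) ≤ d := by
    intro x hx
    have : x.2 ∈ Finset.Icc c d := by
      rw [← hV]; exact Finset.mem_image_of_mem _ hx
    rw [Finset.mem_Icc] at this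
    exact ⟨by exact_mod_cast this.1, by exact_mod_cast this.2⟩
  set D : ℝ := Metric.diam (emb '' (G : Set Pt)) with hD
  have hDle : D ≤ (1 + δ) * p := by
    apply Metric.diam_le_of_forall_dist_le (by positivity)
    rintro _ ⟨x, hx, rfl⟩ _ ⟨y, hy, rfl⟩
    rw [emb_eq, emb_eq, dist_eq_norm, rem_sub]
    have h1 := hGu x hx
    have h2 := hGu y hy
    have h3 := hGv x hx
    have h4 := hGv y hy
    apply norm_rem_le
    · rw [abs_le]; constructor <;> linarith [h1.1, h1.2, h2.1, h2.2]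
    · rw [abs_le]; constructor <;> linarith [h3.1, h3.2, h4.1, h4.2]
  have hDge : (1 - 3 * δ) * p ≤ D := by
    obtain ⟨x, hx, hxb⟩ := hbox a c le_rfl hab3 le_rfl hcd3
    obtain ⟨y, hy, hyb⟩ := hbox (b - w) (d - w) (by linarith) (by linarith) (by linarith)
      (by linarith)
    have hbd : Bornology.IsBounded (emb '' (G : Set Pt)) :=
      (G.finite_toSet.image emb).isBounded
    refine le_trans ?_ (Metric.dist_le_diam_of_mem hbd (Set.mem_image_of_mem _ hy)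
      (Set.mem_image_of_mem _ hx))
    rw [emb_eq, emb_eq, dist_eq_norm, rem_sub]
    obtain ⟨hx1, hx2, hx3, hx4⟩ := hxb
    obtain ⟨hy1, hy2, hy3, hy4⟩ := hyb
    have hx2' : (x.1 : ℝ) ≤ a + w := by exact_mod_cast hx2
    have hx4' : (x.2 : ℝ) ≤ c + w := by exact_mod_cast hx4
    have hy1' : (b : ℝ) - w ≤ y.1 := by exact_mod_cast hy1
    have hy3' : (d : ℝ) - w ≤ y.2 := by exact_mod_cast hy3
    apply le_norm_rem
    · nlinarith
    · linarith
    · linarith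
  have h3δ : 3 / 4 ≤ 1 - 3 * δ := by linarith
  have hDp : 3 / 4 * p ≤ D := le_trans (mul_le_mul_of_nonneg_right h3δ hp0.le) hDge
  have hD0 : 0 < D := by linarith
  refine ⟨?_, hDge, hDle⟩
  -- the translation
  set cu : ℝ := ((a : ℝ) + b) / 2 with hcu
  set cv : ℝ := ((c : ℝ) + d) / 2 with hcv
  refine iInf_le_of_le (rem (cu / D) (cv / D)) ?_
  apply Metric.hausdorffEDist_le_of_mem_edist
  · -- points of the shape
    rintro _ ⟨_, ⟨x, hx, rfl⟩, rfl⟩
    have h1 := hGu x hx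
    have h3 := hGv x hx
    -- coordinates
    have key : ∀ (t m lo hi : ℝ), m = (lo + hi) / 2 → lo ≤ t → t ≤ hi → hi - lo - p ≤ δ * p →
        |t / D - m / D| ≤ 1 / 2 + 8 * δ := by
      intro t m lo hi hm hlo hhi hsz
      rw [← sub_div, abs_div, abs_of_pos hD0, div_le_iff₀ hD0]
      have h5 : |t - m| ≤ (1 + δ) * p / 2 := by
        rw [hm, abs_le]; constructor <;> linarith
      refine h5.trans ?_
      have h6 : (1 / 2 + 8 * δ) * ((1 - 3 * δ) * p) ≤ (1 / 2 + 8 * δ) * D :=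
        mul_le_mul_of_nonneg_left hDge (by positivity)
      refine le_trans ?_ h6
      have h7 : (1 + δ) / 2 ≤ (1 / 2 + 8 * δ) * (1 - 3 * δ) := by nlinarith
      nlinarith
    have hu := key x.1 cu a b hcu h1.1 h1.2 hab2
    have hv := key x.2 cv c d hcv h3.1 h3.2 hcd2
    obtain ⟨u', hu1, hu2⟩ := clamp _ _ (by positivity) hu
    obtain ⟨v', hv1, hv2⟩ := clamp _ _ (by positivity) hv
    refine ⟨rem (cu / D) (cv / D) + rem u' v', ⟨rem u' v', rem_mem_Dmd hu1 hv1, rfl⟩, ?_⟩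
    rw [edist_dist]
    apply ENNReal.ofReal_le_ofReal
    show dist (emb x / (D : ℂ)) _ ≤ ε
    rw [emb_eq, rem_div, rem_add, dist_eq_norm, rem_sub]
    refine (norm_rem_le (r := 8 * δ) ?_ ?_).trans (by linarith)
    · rw [show (x.1 : ℝ) / D - (cu / D + u') = x.1 / D - cu / D - u' by ring]; exact hu2
    · rw [show (x.2 : ℝ) / D - (cv / D + v') = x.2 / D - cv / D - v' by ring]; exact hv2
  · -- points of the diamond
    rintro _ ⟨z, hz, rfl⟩
    obtain ⟨u, v, hu, hv, rfl⟩ := Dmd_eq hz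
    have key : ∀ (t m : ℝ) (lo hi : ℤ), m = ((lo : ℝ) + hi) / 2 → |t| ≤ 1 / 2 →
        -(δ * p) ≤ (hi : ℝ) - lo - p → lo + w ≤ hi →
        ∃ α : ℤ, lo ≤ α ∧ α + w ≤ hi ∧ |(α : ℝ) - (m + D * t)| ≤ 1 + 2 * (δ * p) := by
      intro t m lo hi hm ht hsz hlw
      have h5 : |D * t| ≤ (1 + δ) * p / 2 := by
        rw [abs_mul, abs_of_pos hD0]
        have : D * |t| ≤ D * (1 / 2) := mul_le_mul_of_nonneg_left ht hD0.le
        linarith
      rw [abs_le] at h5
      apply choose_box lo hi w (m + D * t) (2 * (δ * p)) (by positivity) hlw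
      · rw [hm]; linarith [h5.1]
      · rw [hm]; linarith [h5.2]
    obtain ⟨α, hα1, hα2, hα3⟩ := key u cu a b hcu hu hab1 hab3
    obtain ⟨γ, hγ1, hγ2, hγ3⟩ := key v cv c d hcv hv hcd1 hcd3
    obtain ⟨x, hx, hxb⟩ := hbox α γ hα1 hα2 hγ1 hγ2
    obtain ⟨hx1, hx2, hx3, hx4⟩ := hxb
    have hx1' : (α : ℝ) ≤ x.1 := by exact_mod_cast hx1
    have hx2' : (x.1 : ℝ) ≤ α + w := by exact_mod_cast hx2
    have hx3' : (γ : ℝ) ≤ x.2 := by exact_mod_cast hx3
    have hx4' : (x.2 : ℝ) ≤ γ + w := by exact_mod_cast hx4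
    refine ⟨emb x / (D : ℂ), ⟨_, ⟨x, hx, rfl⟩, rfl⟩, ?_⟩
    rw [edist_comm, edist_dist]
    apply ENNReal.ofReal_le_ofReal
    rw [emb_eq, rem_div]
    show dist _ (rem (cu / D) (cv / D) + rem u v) ≤ ε
    rw [rem_add, dist_eq_norm, rem_sub]
    have fin : ∀ (s m t A : ℝ), A ≤ s → s ≤ A + w → |A - (m + D * t)| ≤ 1 + 2 * (δ * p) →
        |s / D - (m / D + t)| ≤ ε := by
      intro s m t A h5 h6 h7
      have h8 : s / D - (m / D + t) = (s - (m + D * t)) / D := by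
        field_simp
      rw [h8, abs_div, abs_of_pos hD0, div_le_iff₀ hD0]
      rw [abs_le] at h7
      have h9 : |s - (m + D * t)| ≤ 1 + 3 * (δ * p) := by
        rw [abs_le]; constructor <;> linarith [h7.1, h7.2]
      refine h9.trans ?_
      have h10 : ε * (3 / 4 * p) ≤ ε * D := mul_le_mul_of_nonneg_left hDp hε.le
      have h11 : δ * p ≤ ε / 24 * p := mul_le_mul_of_nonneg_right hδ1 hp0.le
      nlinarith
    apply norm_rem_le
    · exact fin _ _ _ _ hx1' hx2' hα3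
    · exact fin _ _ _ _ hx3' hx4' hγ3

end Pool.Agent.H51.DQ
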