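import Pool.Graph.R_seed8.H308R3.DM.Final
import Pool.Agent.H51.DQ.Geo
import Pool.Agent.H51.DQ.Form

set_option autoImplicit false

/-! # The typical range in rotated coordinates, with explicit rates -/

namespace Pool.Agent.H51.DQ

open Finset Filter Topology
open Pool.Agent.H308R3.DM
open scoped Classical BigOperators ENNReal

noncomputable section

/-- the conclusions, in rotated coordinates; `s` stands for `β ^ (-1/4)` -/
def TypR (A s p : ℝ) (G : Finset Pt) : Prop :=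
  hd (shape G) Dmd ≤ ENNReal.ofReal (A * s) ∧
  |Metric.diam (emb '' (G : Set Pt)) - p| ≤ A * s * p ∧
  |((bd G).card : ℝ) - 2 * p| ≤ A * s ^ 2 * p ∧
  ∃ a b c d : ℤ, pU G = Icc a b ∧ pV G = Icc c d ∧
    |((b - a : ℤ) : ℝ) - p| ≤ A * s ^ 2 * p ∧ |((d - c : ℤ) : ℝ) - p| ≤ A * s ^ 2 * p ∧
    |((bd G).card : ℝ) - (((b - a : ℤ) : ℝ) + ((d - c : ℤ) : ℝ))| ≤ A * s ^ 4 * p

/-- deterministic part -/
theorem typ_of (hIso : TaskIso) {K B H A s p : ℝ} (hK : 1 ≤ K) (hB : 1 ≤ B) (hH : 1 ≤ H)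
    (hA : A = 24 * (2 * B + 4 * H) + 8 * K) (hs : 0 < s) (hs1 : s ≤ 1)
    (hδ : 2 * (B * s) + 4 * (H * s ^ 2) ≤ 1 / 12)
    (hp1 : 1 ≤ H * s ^ 2 * p) (hp2 : 1 ≤ B * s * p) (hp3 : 1 ≤ 2 * K * s ^ 4 * p)
    (hp4 : 8 / (24 * (2 * (B * s) + 4 * (H * s ^ 2))) + 1 ≤ p)
    (G : Finset Pt) (hne : G.Nonempty) (a b c d : ℤ) (hU : pU G = Icc a b) (hV : pV G = Icc c d)
    (hab : a ≤ b) (hcd : c ≤ d)
    (g1 : |((pU (inn G)).card : ℝ) - p| ≤ H * s ^ 2 * p)
    (g2 : |((pV (inn G)).card : ℝ) - p| ≤ H * s ^ 2 * p)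
    (g3 : ((bd G).card : ℝ) ≤ (pU (inn G)).card + (pV (inn G)).card + H * s ^ 2 * p)
    (g4 : ((bd G).card : ℝ) ≤ (pU (inn G)).card + (pV (inn G)).card + 4 * K * s ^ 4 * p)
    (hmiss : ∀ w : ℕ, B * s * p ≤ w → G ∉ missing w) : TypR A s p G := by
  have hs2 : s ^ 2 ≤ s := by nlinarith
  have hs20 : 0 < s ^ 2 := by positivity
  have hs40 : 0 < s ^ 4 := by positivity
  have hs42 : s ^ 4 ≤ s ^ 2 := by nlinarith
  have hp0 : 0 < p := by
    have h1 : 0 < H * s ^ 2 := by positivity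
    by_contra h
    push Not at h
    nlinarith
  have i1 : ((pU G).card : ℝ) + (pV (inn G)).card ≤ (bd G).card := by exact_mod_cast hIso G
  have i2 : ((pV G).card : ℝ) + (pU (inn G)).card ≤ (bd G).card := by
    exact_mod_cast B2.iso_swap hIso G
  have i3 : ((pU (inn G)).card : ℝ) ≤ (pU G).card := by exact_mod_cast B2.pU_inn_le G
  have i4 : ((pV (inn G)).card : ℝ) ≤ (pV G).card := by exact_mod_cast B2.pV_inn_le G
  rw [abs_le] at g1 g2
  have cU : ((pU G).card : ℝ) = ((b - a : ℤ) : ℝ) + 1 := by rw [hU]; exact B2.toNat_card hab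
  have cV : ((pV G).card : ℝ) = ((d - c : ℤ) : ℝ) + 1 := by rw [hV]; exact B2.toNat_card hcd
  obtain ⟨κ, hκ⟩ : ∃ κ, κ = B * s := ⟨_, rfl⟩
  obtain ⟨η, hη⟩ : ∃ η, η = H * s ^ 2 := ⟨_, rfl⟩
  obtain ⟨e, he⟩ : ∃ e, e = 4 * K * s ^ 4 := ⟨_, rfl⟩
  have hκ0 : 0 < κ := by rw [hκ]; positivity
  have hη0 : 0 < η := by rw [hη]; positivity
  have he0 : 0 < e := by rw [he]; positivity
  rw [← hη] at g1 g2 g3 hp1 hδ hp4
  rw [← he] at g4
  rw [← hκ] at hmiss hp2 hδ hp4
  have hep : 2 ≤ e * p := by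
    have : e * p = 2 * (2 * K * s ^ 4 * p) := by rw [he]; ring
    linarith
  obtain ⟨δ, hδd⟩ : ∃ δ, δ = 2 * κ + 4 * η := ⟨_, rfl⟩
  rw [← hδd] at hδ hp4
  have hδ0 : 0 < δ := by rw [hδd]; positivity
  have hηp0 : 0 < η * p := mul_pos hη0 hp0
  have hκp0 : 0 < κ * p := mul_pos hκ0 hp0
  have hδp : δ * p = 2 * (κ * p) + 4 * (η * p) := by rw [hδd]; ring
  obtain ⟨w, hw⟩ : ∃ w : ℕ, w = ⌈κ * p⌉₊ := ⟨_, rfl⟩
  have hw1 : κ * p ≤ w := by rw [hw]; exact Nat.le_ceil _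
  have hw2 : (w : ℝ) ≤ κ * p + 1 := by rw [hw]; exact (Nat.ceil_lt_add_one hκp0.le).le
  have e1 : |((b - a : ℤ) : ℝ) - p| ≤ 3 * (η * p) := by
    rw [abs_le]
    constructor <;> linarith [g1.1, g1.2, g2.1, g2.2]
  have e2 : |((d - c : ℤ) : ℝ) - p| ≤ 3 * (η * p) := by
    rw [abs_le]
    constructor <;> linarith [g1.1, g1.2, g2.1, g2.2]
  have hgeo := geoX (ε := 24 * δ) hδ0 hδ rfl p G a b c d w hp4 hne hU hV
    (by
      have := e1
      push_cast at this
      refine this.trans ?_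
      rw [hδp]; linarith)
    (by
      have := e2
      push_cast at this
      refine this.trans ?_
      rw [hδp]; linarith)
    (by rw [hδp]; linarith)
    (by
      intro α γ h1 h2 h3 h4
      by_contra hno
      push Not at hno
      exact hmiss w hw1 ⟨a, b, c, d, α, γ, hU, hV, h1, h2, h3, h4, hno⟩)
  obtain ⟨hg1, hg2, hg3⟩ := hgeo
  have hδs : 24 * δ ≤ A * s := by
    rw [hδd, hκ, hη, hA]
    nlinarith [mul_le_mul_of_nonneg_left hs2 (by positivity : (0:ℝ) ≤ H), mul_pos (by linarith : (0:ℝ) < K) hs]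
  have hA0 : 0 < A := by rw [hA]; positivity
  have hηs : 4 * η ≤ A * s ^ 2 := by
    rw [hη, hA]
    nlinarith [mul_pos (by linarith : (0:ℝ) < B) hs20, mul_pos (by linarith : (0:ℝ) < K) hs20,
      mul_pos (by linarith : (0:ℝ) < H) hs20]
  have hes : 2 * e ≤ A * s ^ 4 := by
    rw [he, hA]
    nlinarith [mul_pos (by linarith : (0:ℝ) < B) hs40, mul_pos (by linarith : (0:ℝ) < H) hs40]
  have hηe : 2 * η + e ≤ A * s ^ 2 := by
    rw [hη, he, hA]
    nlinarith [mul_pos (by linarith : (0:ℝ) < B) hs20, mul_le_mul_of_nonneg_left hs42 (by linarith : (0:ℝ) ≤ K),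
      mul_pos (by linarith : (0:ℝ) < H) hs20, mul_pos (by linarith : (0:ℝ) < K) hs20]
  refine ⟨hg1.trans (ENNReal.ofReal_le_ofReal hδs), ?_, ?_, a, b, c, d, hU, hV, ?_, ?_, ?_⟩
  · have h1 : 24 * δ * p ≤ A * s * p := mul_le_mul_of_nonneg_right hδs hp0.le
    have h2 : 0 < δ * p := mul_pos hδ0 hp0
    rw [abs_le]
    constructor <;> linarith
  · have h1 : (2 * η + e) * p ≤ A * s ^ 2 * p := mul_le_mul_of_nonneg_right hηe hp0.le
    rw [abs_le]
    constructor <;> linarith [g1.1, g1.2, g2.1, g2.2, mul_pos he0 hp0]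
  · have h1 : 4 * η * p ≤ A * s ^ 2 * p := mul_le_mul_of_nonneg_right hηs hp0.le
    refine e1.trans ?_
    linarith
  · have h1 : 4 * η * p ≤ A * s ^ 2 * p := mul_le_mul_of_nonneg_right hηs hp0.le
    refine e2.trans ?_
    linarith
  · have h1 : 2 * e * p ≤ A * s ^ 4 * p := mul_le_mul_of_nonneg_right hes hp0.le
    rw [abs_le]
    constructor <;> linarith

theorem mainX : ∃ A β₀ : ℝ, 31 ≤ A ∧ 28 ≤ β₀ ∧ ∀ β : ℝ, β₀ ≤ β →
    Tendsto (fun t => mu β t {G | ¬ TypR A (β ^ (-(1 / 4) : ℝ)) (ps β t) G}) atTop (𝓝 0) ∧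
    ∀ᶠ t in atTop, Real.exp (-(3 * β + A) * ps β t) ≤ Es t (wt β) ∧
      Es t (wt β) ≤ Real.exp (-(3 * β - A) * ps β t) := by
  obtain ⟨C', β₁, hC', hβ₁, hZ⟩ := Final.z
  have hUB : UBX := ubX taskThin
  have hInt : TaskInt := Final.int
  have hIso : TaskIso := Final.iso
  obtain ⟨K, hK⟩ : ∃ K, K = 29 + C' := ⟨_, rfl⟩
  obtain ⟨H, hH⟩ : ∃ H, H = 48 * K := ⟨_, rfl⟩
  obtain ⟨B, hB⟩ : ∃ B, B = 245760 * (4 * K + C' + 1) := ⟨_, rfl⟩
  obtain ⟨A, hA⟩ : ∃ A, A = 24 * (2 * B + 4 * H) + 8 * K := ⟨_, rfl⟩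
  have hK1 : 1 ≤ K := by rw [hK]; linarith
  have hK29 : 29 ≤ K := by rw [hK]; linarith
  have hH1 : 1 ≤ H := by rw [hH]; linarith
  have hB1 : 1 ≤ B := by rw [hB]; linarith
  have hKC : C' ≤ K := by rw [hK]; linarith
  have hAK : 8 * K ≤ A := by rw [hA]; linarith
  -- smallness of `s`
  have hlim : Tendsto (fun β : ℝ => β ^ (-(1 / 4) : ℝ)) atTop (𝓝 0) :=
    tendsto_rpow_neg_atTop (by norm_num)
  obtain ⟨ν, hν⟩ : ∃ ν, ν = 1 / (100 * (B + H + K)) := ⟨_, rfl⟩
  have hν0 : 0 < ν := by rw [hν]; positivity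
  obtain ⟨β₂, hβ₂⟩ := (hlim.eventually (gt_mem_nhds hν0)).exists_forall_of_atTop
  refine ⟨A, max (max β₁ β₂) (max K 28), by linarith, (le_max_right _ _).trans (le_max_right _ _), ?_⟩
  intro β hβ
  have hββ1 : β₁ ≤ β := ((le_max_left _ _).trans (le_max_left _ _)).trans hβ
  have hββ2 : β₂ ≤ β := ((le_max_right _ _).trans (le_max_left _ _)).trans hβ
  have hβK : K ≤ β := ((le_max_left _ _).trans (le_max_right _ _)).trans hβ
  have hβ28 : 28 ≤ β := ((le_max_right _ _).trans (le_max_right _ _)).trans hβ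
  have hβ0 : 0 < β := by linarith
  obtain ⟨s, hs⟩ : ∃ s, s = β ^ (-(1 / 4) : ℝ) := ⟨_, rfl⟩
  rw [← hs]
  have hs0 : 0 < s := by rw [hs]; positivity
  have hsν : s < ν := by rw [hs]; exact hβ₂ β hββ2
  have hs4 : s ^ 4 * β = 1 := by
    rw [hs, ← Real.rpow_natCast, ← Real.rpow_mul hβ0.le]
    norm_num
    rw [Real.rpow_neg_one]
    field_simp
  have hsum : s * (100 * (B + H + K)) < 1 := by
    have h1 : ν * (100 * (B + H + K)) = 1 := by rw [hν]; field_simp
    have h2 : 0 < 100 * (B + H + K) := by positivity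
    calc s * (100 * (B + H + K)) < ν * (100 * (B + H + K)) := mul_lt_mul_of_pos_right hsν h2
      _ = 1 := h1
  have hBs : B * s ≤ 1 / 100 := by nlinarith
  have hHs : H * s ≤ 1 / 100 := by nlinarith
  have hKs : K * s ≤ 1 / 100 := by nlinarith
  have hs1 : s ≤ 1 / 100 := by nlinarith
  have hHs2 : H * s ^ 2 ≤ 1 / 10000 := by nlinarith
  have hKs4 : K * s ^ 4 ≤ 1 / 100 := by
    have h1 : s ^ 4 ≤ s := by
      have : s ^ 3 ≤ 1 := pow_le_one₀ hs0.le (by linarith)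
      calc s ^ 4 = s ^ 3 * s := by ring
        _ ≤ 1 * s := mul_le_mul_of_nonneg_right this hs0.le
        _ = s := one_mul s
    have h2 : K * s ^ 4 ≤ K * s := mul_le_mul_of_nonneg_left h1 (by linarith)
    linarith
  have hps := ps_tendsto' hβ0
  have hZβ := hZ β hββ1
  -- sizes
  have hbad1 := bad1X hUB hIso hInt hβ0 hZβ hC' (by rw [← hK]; exact hβK) (η := H * s ^ 2)
    (by positivity) (by linarith) (by
      have : (H * s ^ 2) ^ 2 * β = H ^ 2 * (s ^ 4 * β) := by ring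
      rw [this, hs4, ← hK, ← hH]
      nlinarith)
  have hexc := excess hUB hIso hInt hβ0 hZβ hC' (by rw [← hK]; exact hβK) (e := 4 * K * s ^ 4)
    (by positivity) (by linarith) (by
      have : 4 * K * s ^ 4 * β = 4 * K * (s ^ 4 * β) := by ring
      rw [this, hs4, ← hK]
      linarith)
  have hform := formX Pool.Agent.H431R3.DM.taskGap (κ := B * s) (by positivity) (by linarith)
  have hbad2 := bad2X Pool.Agent.H283R3.DMPow.taskPow hIso hInt hform (by positivity) (by positivity)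
    hβ0 hZβ (e := 4 * K * s ^ 4) (η := H * s ^ 2) (by positivity) (by linarith) (by
      have e1 : (B * s) ^ 4 / 24576 * β = B ^ 4 / 24576 * (s ^ 4 * β) := by ring
      have e2 : 4 * K * s ^ 4 * β = 4 * K * (s ^ 4 * β) := by ring
      rw [e1, e2, hs4, mul_one, mul_one]
      have h1 : B ≤ B ^ 4 := le_self_pow₀ hB1 (by norm_num)
      rw [le_div_iff₀ (by norm_num)]
      refine le_trans ?_ h1
      rw [hB]
      linarith)
  refine ⟨?_, ?_⟩
  · have h7 := (hbad1.add hexc).add hbad2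
    rw [add_zero, add_zero] at h7
    refine squeeze_zero' ?_ ?_ h7
    · filter_upwards [eventually_ge_atTop 0] with t ht
      exact mu_nonneg hβ0.le ht _
    · filter_upwards [eventually_ge_atTop 0, hps.eventually_ge_atTop (1 / (H * s ^ 2)),
        hps.eventually_ge_atTop (1 / (B * s)), hps.eventually_ge_atTop (1 / (2 * K * s ^ 4)),
        hps.eventually_ge_atTop (8 / (24 * (2 * (B * s) + 4 * (H * s ^ 2))) + 1)] with t ht hp1 hp2 hp3 hp4
      rw [div_le_iff₀ (by positivity)] at hp1 hp2 hp3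
      have hstep1 : mu β t {G | ¬ TypR A s (ps β t) G} ≤
          mu β t ({G | G ∉ good1 (H * s ^ 2) β t} ∪
            {G | ((pU (inn G)).card : ℝ) + (pV (inn G)).card + 4 * K * s ^ 4 * ps β t < (bd G).card}) +
          mu β t {G | G ∈ good1 (H * s ^ 2) β t ∧
            ((bd G).card : ℝ) ≤ (pU (inn G)).card + (pV (inn G)).card + 4 * K * s ^ 4 * ps β t ∧
            ∃ w : ℕ, B * s * ps β t ≤ w ∧ G ∈ missing w} := by
        refine mu_le_add hβ0.le ht fun n ω hω => ?_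
        by_contra hcon
        push Not at hcon
        obtain ⟨hc1, hc2⟩ := hcon
        apply hω
        have hgood : rng 0 ω ∈ good1 (H * s ^ 2) β t := by
          by_contra h
          exact hc1 (Or.inl h)
        have hex : ((bd (rng 0 ω)).card : ℝ) ≤ (pU (inn (rng 0 ω))).card +
            (pV (inn (rng 0 ω))).card + 4 * K * s ^ 4 * ps β t := by
          by_contra h
          push Not at h
          exact hc1 (Or.inr h)
        obtain ⟨⟨a, b, ha, hb, hU⟩, ⟨c, d, hc, hd', hV⟩, -⟩ := hInt n ω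
        have hne : (rng 0 ω).Nonempty :=
          ⟨pos 0 ω 0, Finset.mem_image_of_mem _ (Finset.mem_range.mpr (Nat.succ_pos n))⟩
        refine typ_of hIso hK1 hB1 hH1 hA hs0 (by linarith) (by linarith) (by linarith) (by linarith)
          (by linarith) hp4 (rng 0 ω) hne a b c d hU hV (by omega) (by omega) hgood.1 hgood.2.1
          hgood.2.2 hex ?_
        intro w hw hm
        exact hc2 ⟨hgood, hex, w, hw, hm⟩
      have hstep2 : mu β t ({G | G ∉ good1 (H * s ^ 2) β t} ∪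
            {G | ((pU (inn G)).card : ℝ) + (pV (inn G)).card + 4 * K * s ^ 4 * ps β t < (bd G).card}) ≤
          mu β t {G | G ∉ good1 (H * s ^ 2) β t} + mu β t
            {G | ((pU (inn G)).card : ℝ) + (pV (inn G)).card + 4 * K * s ^ 4 * ps β t < (bd G).card} :=
        mu_le_add hβ0.le ht fun n ω hω => hω
      exact hstep1.trans (add_le_add hstep2 le_rfl)
  · filter_upwards [hZβ, zUpper hUB hIso hInt β hβ28, hps.eventually_ge_atTop 0] with t h1 h2 hp
    refine ⟨le_trans (Real.exp_le_exp.mpr ?_) h1, h2.trans (Real.exp_le_exp.mpr ?_)⟩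
    · have h3 : C' * ps β t ≤ A * ps β t := mul_le_mul_of_nonneg_right (by linarith) hp
      linarith
    · have h3 : 31 * ps β t ≤ A * ps β t := mul_le_mul_of_nonneg_right (by linarith) hp
      linarith

end

end Pool.Agent.H51.DQ
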